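import Pool.Agent.Q210.IU.Fix

set_option linter.unusedSectionVars false

open Filter Set Cardinal ZFSet

universe u v

namespace Q210.IU

section
variable (κ : ℕ → Cardinal.{u})

/-- the second coordinates -/
abbrev Kt : Type u := (⨆ n, κ n).ord.ToType

/-- the index set -/
abbrev It : Type u := ℕ ×ₗ Kt κ

/-- the spaces -/
abbrev Xt (c : It κ) : Type u := (κ (ofLex c).1).ord.ToType

variable (W : ∀ n, Ultrafilter (κ n).ord.ToType)

/-- the ultrafilters -/
def Ut (c : It κ) : Ultrafilter (Xt κ c) := W (ofLex c).1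

variable (B : ℕ → Set (Kt κ))

/-- a block: `B j` many copies of the `n`-th ultrafilter -/
def blk (n j : ℕ) : Set (It κ) := {c | (ofLex c).1 = n ∧ (ofLex c).2 ∈ B j}

variable {κ W B} (hκ : StrictMono κ) (h0 : ∀ n, ℵ₀ < κ n) (hW : ∀ n, IsMeas (W n))
  (hB : ∀ j, #(B j) = κ j)

include hκ in
lemma lt_sup (n : ℕ) : κ n < ⨆ n, κ n :=
  (hκ (Nat.lt_succ_self n)).trans_le (le_ciSup Cardinal.bddAbove_of_small (n + 1))

include hκ in
lemma exists_lt {o : Ordinal.{u}} (ho : o < (⨆ n, κ n).ord) (N : ℕ) :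
    ∃ n, N ≤ n ∧ o < (κ n).ord := by
  rw [Cardinal.lt_ord] at ho
  obtain ⟨n, hn⟩ := exists_lt_of_lt_ciSup ho
  refine ⟨max N n, le_max_left _ _, ?_⟩
  rw [Cardinal.lt_ord]
  exact hn.trans_le (hκ.monotone (le_max_right _ _))

include h0 hW in
lemma inacc (n : ℕ) : IsInaccessible (κ n) := (hW n).isInaccessible (h0 n)

include h0 hW in
lemma Ut_sigma (c : It κ) : Cpl (Ut κ W c) (ULift.{u} ℕ) := by
  refine (hW (ofLex c).1).cpl ?_
  rw [Cardinal.mk_uLift, Cardinal.mk_nat, Cardinal.lift_aleph0]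
  exact h0 _

include hW in
lemma Ut_cpl (c : It κ) {T : Type u} (hT : #T < κ (ofLex c).1) : Cpl (Ut κ W c) T :=
  (hW (ofLex c).1).cpl hT

lemma mk_Xt (c : It κ) : #(Xt κ c) = κ (ofLex c).1 := by
  simp [Xt]

include hB in
lemma mk_blk (n j : ℕ) : #(blk κ B n j) ≤ κ j := by
  rw [← hB j]
  refine Cardinal.mk_le_of_injective (f := fun c : blk κ B n j => (⟨(ofLex c.1).2, c.2.2⟩ : B j)) ?_
  intro c d h
  have h1 : (ofLex c.1).2 = (ofLex d.1).2 := Subtype.ext_iff.1 h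
  have h2 : (ofLex c.1).1 = (ofLex d.1).1 := c.2.1.trans d.2.1.symm
  apply Subtype.ext
  exact ofLex.injective (Prod.ext h2 h1)

lemma lt_of_fst {c d : It κ} (h : (ofLex c).1 < (ofLex d).1) : c < d := by
  rw [Prod.Lex.lt_iff]
  exact Or.inl h

end

section
variable {κ : ℕ → Cardinal.{u}} {W : ∀ n, Ultrafilter (κ n).ord.ToType} {B : ℕ → Set (Kt κ)}
variable (hκ : StrictMono κ) (h0 : ∀ n, ℵ₀ < κ n) (hW : ∀ n, IsMeas (W n))
  (hB : ∀ j, #(B j) = κ j)

variable (W) in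
/-- the embedding -/
noncomputable def Et (S : Set (It κ)) (x : ZFSet.{u}) : ZFSet.{u} :=
  E (Ut κ W) (Ut_sigma h0 hW) S x

/-- small systems map small ordinals to small ordinals -/
lemma Et_small {l : Cardinal.{u}} (hl : IsInaccessible l) {P : Set (It κ)} (hP : #P < l)
    (hX : ∀ c ∈ P, κ (ofLex c).1 < l) {o : Ordinal.{u}} (ho : o < l.ord) :
    Et W h0 hW P o.toZFSet ∈ l.ord.toZFSet := by
  apply mem_of_card_lt (E_ord _ _ _ (ZFSet.isOrdinal_toZFSet o))
  apply card_E_lt _ _ _ hl.isStrongLimit hP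
  · rw [Cardinal.mk_sigma]
    refine sum_lt_of_isRegular hl.isRegular hP fun c => ?_
    rw [mk_Xt]
    exact hX c.1 c.2
  · rw [Ordinal.card_toZFSet]
    exact Cardinal.lt_ord.1 ho

/-- systems living high fix small sets -/
lemma Et_fix {n : ℕ} {S : Set (It κ)} (hS : ∀ c ∈ S, n ≤ (ofLex c).1) {z : ZFSet.{u}}
    (hz : z.rank < (κ n).ord) (hκ : StrictMono κ) : Et W h0 hW S z = z := by
  refine E_fix _ _ S (inacc h0 hW n) (fun c hc T hT => ?_) z hz
  exact Ut_cpl hW c (hT.trans_le (hκ.monotone (hS c hc)))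

include hκ in
/-- the supremum is fixed as soon as smaller ordinals stay below it -/
lemma Et_sup {S : Set (It κ)} (h : ∀ η < (⨆ n, κ n).ord, Et W h0 hW S η.toZFSet ∈
    (⨆ n, κ n).ord.toZFSet) : Et W h0 hW S (⨆ n, κ n).ord.toZFSet = (⨆ n, κ n).ord.toZFSet := by
  refine E_lim _ _ S (a := fun n => (κ n).ord) (fun η hη => ?_) fun n => ?_
  · obtain ⟨n, _, hn⟩ := exists_lt hκ hη 0
    exact ⟨n, hn⟩
  · refine (ZFSet.isOrdinal_toZFSet _).subset_of_mem (h _ ?_)
    exact Cardinal.ord_lt_ord.2 (lt_sup hκ n)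

include hκ hB in
lemma Et_blk_sup (n j : ℕ) : Et W h0 hW (blk κ B n j) (⨆ n, κ n).ord.toZFSet =
    (⨆ n, κ n).ord.toZFSet := by
  refine Et_sup hκ h0 hW fun η hη => ?_
  obtain ⟨N, hN, hN2⟩ := exists_lt hκ hη (max n j + 1)
  have h1 : n < N := lt_of_le_of_lt (le_max_left n j) hN
  have h2 : j < N := lt_of_le_of_lt (le_max_right n j) hN
  have h3 := Et_small h0 hW (inacc h0 hW N) (P := blk κ B n j)
    (lt_of_le_of_lt (mk_blk hB n j) (hκ h2))
    (fun c hc => by rw [hc.1]; exact hκ h1) hN2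
  refine (ZFSet.isOrdinal_toZFSet _).mem_trans h3 ?_
  rw [Ordinal.toZFSet_mem_toZFSet_iff]
  exact Cardinal.ord_lt_ord.2 (lt_sup hκ N)

/-- the projections -/
noncomputable def prj (n j : ℕ) (ξ : B j) : Fn (Xt κ) (blk κ B n j) :=
  ⟨fun s => (Ordinal.ToType.toOrd (o := (κ n).ord) (s (toLex (n, ξ.1)))).1.toZFSet,
    {toLex (n, ξ.1)}, by
    intro c hc
    rw [Finset.mem_coe, Finset.mem_singleton] at hc
    subst hc
    exact ⟨rfl, ξ.2⟩, by
    intro s s' hs
    have := hs (toLex (n, ξ.1)) (by simp)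
    change (Ordinal.ToType.toOrd (o := (κ n).ord) (s (toLex (n, ξ.1)))).1.toZFSet =
      (Ordinal.ToType.toOrd (o := (κ n).ord) (s' (toLex (n, ξ.1)))).1.toZFSet
    rw [this]⟩

lemma prj_mem (n j : ℕ) (ξ : B j) :
    coll (Ut κ W) (Ut_sigma h0 hW) (prj (B := B) n j ξ) ∈
      Et W h0 hW (blk κ B n j) (κ n).ord.toZFSet := by
  unfold Et
  rw [mem_E]
  refine ⟨_, ?_, rfl⟩
  refine large_of_forall ((prj n j ξ).fs.comp fun a => a ∈ (κ n).ord.toZFSet) fun s => ?_
  rw [Ordinal.mem_toZFSet_iff]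
  exact ⟨_, (Ordinal.ToType.toOrd (o := (κ n).ord) (s (toLex (n, ξ.1)))).2, rfl⟩

lemma prj_ne (n j : ℕ) {ξ ζ : B j} (h : ξ.1 < ζ.1) :
    coll (Ut κ W) (Ut_sigma h0 hW) (prj (B := B) n j ξ) ≠
      coll (Ut κ W) (Ut_sigma h0 hW) (prj (B := B) n j ζ) := by
  classical
  intro hcon
  rw [coll_eq_iff] at hcon
  let c : It κ := toLex (n, ξ.1)
  let d : It κ := toLex (n, ζ.1)
  have hcd : c < d := by
    rw [Prod.Lex.lt_iff]
    exact Or.inr ⟨rfl, h⟩
  have hsupp : Supp ({c} ∪ {d} : Finset (It κ)) (fun s : ∀ c, Xt κ c =>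
      (prj (B := B) n j ξ).1 s = (prj (B := B) n j ζ).1 s) := by
    intro s s' hs
    have h1 : s c = s' c := hs c (by simp)
    have h2 : s d = s' d := hs d (by simp)
    change ((Ordinal.ToType.toOrd (o := (κ n).ord) (s c)).1.toZFSet =
      (Ordinal.ToType.toOrd (o := (κ n).ord) (s d)).1.toZFSet) = 
      ((Ordinal.ToType.toOrd (o := (κ n).ord) (s' c)).1.toZFSet =
      (Ordinal.ToType.toOrd (o := (κ n).ord) (s' d)).1.toZFSet)
    rw [h1, h2]
  obtain ⟨s⟩ := nonempty_pt (Ut κ W)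
  rw [large_iff hsupp s, sort_split (S₁ := {c}) (S₂ := {d}) (by
    rintro a rfl b rfl
    exact hcd) (by simp) (by simp), Finset.sort_singleton, Finset.sort_singleton] at hcon
  change ∀ᶠ t in (Ut κ W c : Filter (Xt κ c)), ∀ᶠ t' in (Ut κ W d : Filter (Xt κ d)),
    (prj (B := B) n j ξ).1 (Function.update (Function.update s c t) d t') =
      (prj (B := B) n j ζ).1 (Function.update (Function.update s c t) d t') at hcon
  obtain ⟨t, ht⟩ := hcon.exists
  have h3 : ∀ᶠ t' in (Ut κ W d : Filter (Xt κ d)), t' ≠ t := (hW n).1 t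
  obtain ⟨t', ht', hne⟩ := (ht.and h3).exists
  apply hne
  have e1 : (Function.update (Function.update s c t) d t') c = t := by
    rw [Function.update_of_ne hcd.ne, Function.update_self]
  have e2 : (Function.update (Function.update s c t) d t') d = t' := Function.update_self _ _ _
  have h4 : (Ordinal.ToType.toOrd (o := (κ n).ord)
        ((Function.update (Function.update s c t) d t') c)).1.toZFSet =
      (Ordinal.ToType.toOrd (o := (κ n).ord)
        ((Function.update (Function.update s c t) d t') d)).1.toZFSet := ht'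
  rw [e1, e2] at h4
  have h5 := Ordinal.toZFSet_injective h4
  exact (Ordinal.ToType.mk.symm.injective (Subtype.ext h5)).symm

include hB in
lemma le_Et_blk (n j : ℕ) :
    (κ j).ord.toZFSet ⊆ Et W h0 hW (blk κ B n j) (κ n).ord.toZFSet := by
  have hord : (Et W h0 hW (blk κ B n j) (κ n).ord.toZFSet).IsOrdinal :=
    E_ord (Ut κ W) (Ut_sigma h0 hW) (blk κ B n j) (ZFSet.isOrdinal_toZFSet (κ n).ord)
  have h1 : κ j ≤ (Et W h0 hW (blk κ B n j) (κ n).ord.toZFSet).card := by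
    rw [← hB j, ← Cardinal.lift_le.{u + 1}, ← ZFSet.cardinalMk_coe_sort,
      ← Cardinal.lift_id'.{u, u + 1} #(Et W h0 hW (blk κ B n j) (κ n).ord.toZFSet)]
    refine Cardinal.lift_mk_le_lift_mk_of_injective (f := fun ξ : B j =>
      (⟨_, prj_mem h0 hW n j ξ⟩ : ↥(Et W h0 hW (blk κ B n j) (κ n).ord.toZFSet))) ?_
    intro ξ ζ h
    have h2 := Subtype.ext_iff.1 h
    rcases lt_trichotomy ξ.1 ζ.1 with h3 | h3 | h3
    · exact absurd h2 (prj_ne h0 hW n j h3)
    · exact Subtype.ext h3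
    · exact absurd h2.symm (prj_ne h0 hW n j h3)
  rw [← ZFSet.IsOrdinal.toZFSet_rank_eq hord, Ordinal.toZFSet_subset_toZFSet_iff, Cardinal.ord_le]
  rw [← Ordinal.card_toZFSet, ZFSet.IsOrdinal.toZFSet_rank_eq hord]
  exact h1

end

end Q210.IU
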