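import Mathlib

/-!
# Formulas of the Levy hierarchy, evaluated in the universe `ZFSet` of all sets
-/

universe u

namespace Q210.IU

/-- `cons x v` is the assignment with value `x` at `0` and `v n` at `n + 1`. -/
def cons {M : Type*} (x : M) (v : ℕ → M) : ℕ → M
  | 0 => x
  | n + 1 => v n

/-- The bounded (`Δ_0`) formulas of set theory, with de Bruijn indices as variables:
`ball i φ` is `∀ x ∈ v_i, φ`; in `φ` the new variable `x` has index `0` and all other indices are
raised by `1`. -/
inductive D0 : Type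
  | mem (i j : ℕ)
  | eq (i j : ℕ)
  | neg (φ : D0)
  | and (φ ψ : D0)
  | ball (i : ℕ) (φ : D0)

/-- Truth of a bounded formula in the universe `V` of all sets. -/
def D0.Sat : D0 → (ℕ → ZFSet.{u}) → Prop
  | .mem i j, v => v i ∈ v j
  | .eq i j, v => v i = v j
  | .neg φ, v => ¬ φ.Sat v
  | .and φ ψ, v => φ.Sat v ∧ ψ.Sat v
  | .ball i φ, v => ∀ x ∈ v i, φ.Sat (cons x v)

/-- The `Σ_1`-formulas of the Levy hierarchy: finitely many unbounded existential quantifiers in
front of a bounded formula. -/
inductive S1 : Type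
  | base (φ : D0)
  | ex (φ : S1)

/-- Truth of a `Σ_1`-formula in the universe `V` of all sets. -/
def S1.Sat : S1 → (ℕ → ZFSet.{u}) → Prop
  | .base φ, v => φ.Sat v
  | .ex φ, v => ∃ x, φ.Sat (cons x v)

/-- a bound for the free variables -/
def D0.fv : D0 → ℕ
  | .mem i j => max (i + 1) (j + 1)
  | .eq i j => max (i + 1) (j + 1)
  | .neg φ => φ.fv
  | .and φ ψ => max φ.fv ψ.fv
  | .ball i φ => max (i + 1) φ.fv

theorem D0.sat_congr (φ : D0) : ∀ v v' : ℕ → ZFSet.{u}, (∀ i < φ.fv, v i = v' i) →
    (φ.Sat v ↔ φ.Sat v') := by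
  induction φ with
  | mem i j =>
    intro v v' h
    have h1 := h i (lt_max_of_lt_left (Nat.lt_succ_self i))
    have h2 := h j (lt_max_of_lt_right (Nat.lt_succ_self j))
    change v i ∈ v j ↔ v' i ∈ v' j
    rw [h1, h2]
  | eq i j =>
    intro v v' h
    have h1 := h i (lt_max_of_lt_left (Nat.lt_succ_self i))
    have h2 := h j (lt_max_of_lt_right (Nat.lt_succ_self j))
    change v i = v j ↔ v' i = v' j
    rw [h1, h2]
  | neg φ ih => intro v v' h; exact not_congr (ih v v' h)
  | and φ ψ ih1 ih2 =>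
    intro v v' h
    exact and_congr (ih1 v v' fun i hi => h i (lt_max_of_lt_left hi))
      (ih2 v v' fun i hi => h i (lt_max_of_lt_right hi))
  | ball i φ ih =>
    intro v v' h
    have h1 := h i (lt_max_of_lt_left (Nat.lt_succ_self i))
    change (∀ x ∈ v i, φ.Sat (cons x v)) ↔ (∀ x ∈ v' i, φ.Sat (cons x v'))
    rw [h1]
    refine forall_congr' fun a => imp_congr_right fun _ => ih _ _ fun j hj => ?_
    cases j with
    | zero => rfl
    | succ j => exact h j (lt_max_of_lt_right (Nat.lt_of_succ_lt hj))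

end Q210.IU
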