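import Pool.Agent.Q210.IU.Sys
import Pool.Agent.Q210.IU.Fml

set_option linter.unusedSectionVars false

open Filter Set

universe u v

namespace Q210.IU

variable {I : Type u} [LinearOrder I] {X : I → Type u} (U : ∀ c, Ultrafilter (X c))

/-- functions with finite support contained in `S` -/
def Fn (X : I → Type u) (S : Set I) : Type (u + 1) :=
  {f : (∀ c, X c) → ZFSet.{u} // ∃ F : Finset I, (F : Set I) ⊆ S ∧ Supp F f}

lemma Fn.fs {S : Set I} (f : Fn X S) : FS f.1 := by
  obtain ⟨F, _, hF⟩ := f.2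
  exact ⟨F, hF⟩

/-- membership almost everywhere -/
def eps {S : Set I} (f g : Fn X S) : Prop := Large U (fun s => f.1 s ∈ g.1 s)

lemma eps_fs {S : Set I} (f g : Fn X S) : FS (fun s => f.1 s ∈ g.1 s) :=
  f.fs.comp₂ g.fs fun a b => a ∈ b

lemma eq_fs {S : Set I} (f g : Fn X S) : FS (fun s => f.1 s = g.1 s) :=
  f.fs.comp₂ g.fs fun a b => a = b

lemma eps_wf [WellFoundedLT I] (hσ : ∀ c, Cpl (U c) (ULift.{u} ℕ)) (S : Set I) :
    WellFounded (eps U (S := S)) := by
  rw [wellFounded_iff_isEmpty_descending_chain]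
  refine ⟨fun ⟨f, hf⟩ => ?_⟩
  obtain ⟨s, hs⟩ := common hσ (fun n s => (f (n + 1)).1 s ∈ (f n).1 s) hf
  exact (wellFounded_iff_isEmpty_descending_chain.1 ZFSet.mem_wf).false
    ⟨fun n => (f n).1 s, hs⟩

/-- a set containing all the values of `f` and `∅` -/
noncomputable def tv {S : Set I} (f : Fn X S) : ZFSet.{u} := insert ∅ (ZFSet.iUnion f.1)

/-- the predecessors with values in `tv f` -/
def Pr {S : Set I} (f : Fn X S) : Type (u + 1) :=
  {g : Fn X S // eps U g f ∧ ∀ s, g.1 s ∈ tv f}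

instance small_Pr {S : Set I} (f : Fn X S) : Small.{u} (Pr U f) := by
  refine small_of_injective (β := (∀ c, X c) → tv f)
    (f := fun g : Pr U f => fun s => (⟨g.1.1 s, g.2.2 s⟩ : tv f)) ?_
  intro g g' h
  apply Subtype.ext
  apply Subtype.ext
  funext s
  have := congrFun h s
  exact Subtype.ext_iff.1 this

section
variable [WellFoundedLT I] (hσ : ∀ c, Cpl (U c) (ULift.{u} ℕ)) {S : Set I}

/-- the transitive collapse -/
noncomputable def coll : Fn X S → ZFSet.{u} :=
  WellFounded.fix (eps_wf U hσ S)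
    (fun f ih => ZFSet.range (fun g : Shrink.{u} (Pr U f) =>
      ih ((equivShrink (Pr U f)).symm g).1 ((equivShrink (Pr U f)).symm g).2.1))

lemma coll_eq (f : Fn X S) : coll U hσ f = ZFSet.range (fun g : Shrink.{u} (Pr U f) =>
    coll U hσ ((equivShrink (Pr U f)).symm g).1) :=
  WellFounded.fix_eq _ _ _

lemma mem_coll' {f : Fn X S} {z : ZFSet.{u}} :
    z ∈ coll U hσ f ↔ ∃ g : Fn X S, eps U g f ∧ (∀ s, g.1 s ∈ tv f) ∧ coll U hσ g = z := by
  rw [coll_eq, ZFSet.mem_range]
  constructor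
  · rintro ⟨g, rfl⟩
    exact ⟨_, ((equivShrink (Pr U f)).symm g).2.1, ((equivShrink (Pr U f)).symm g).2.2, rfl⟩
  · rintro ⟨g, h1, h2, rfl⟩
    let g' : Pr U f := ⟨g, h1, h2⟩
    have e : (equivShrink (Pr U f)).symm (equivShrink (Pr U f) g') = g' :=
      Equiv.symm_apply_apply _ _
    refine ⟨equivShrink (Pr U f) g', ?_⟩
    exact congrArg (fun x : Pr U f => coll U hσ x.1) e

/-- cut off a function -/
noncomputable def cut (g f : Fn X S) : Fn X S := by
  classical
  exact ⟨fun s => if g.1 s ∈ f.1 s then g.1 s else ∅, by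
    obtain ⟨F, hFS, hF⟩ := f.2
    obtain ⟨G, hGS, hG⟩ := g.2
    refine ⟨F ∪ G, by rw [Finset.coe_union]; exact Set.union_subset hFS hGS, fun s s' hs => ?_⟩
    have h1 := hF s s' fun c hc => hs c (by simp [hc])
    have h2 := hG s s' fun c hc => hs c (by simp [hc])
    change (if g.1 s ∈ f.1 s then g.1 s else ∅) = (if g.1 s' ∈ f.1 s' then g.1 s' else ∅)
    rw [h1, h2]⟩

lemma cut_mem (g f : Fn X S) (s : ∀ c, X c) : (cut g f).1 s ∈ tv f := by
  classical
  unfold tv
  rw [ZFSet.mem_insert_iff, ZFSet.mem_iUnion]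
  change (if g.1 s ∈ f.1 s then g.1 s else ∅) = ∅ ∨ ∃ i, (if g.1 s ∈ f.1 s then g.1 s else ∅) ∈ f.1 i
  by_cases h : g.1 s ∈ f.1 s
  · rw [if_pos h]
    exact Or.inr ⟨s, h⟩
  · rw [if_neg h]
    exact Or.inl rfl

lemma cut_eq {g f : Fn X S} (h : eps U g f) : Large U (fun s => (cut g f).1 s = g.1 s) := by
  classical
  refine large_mono (eps_fs g f) (eq_fs _ _) (fun s hs => ?_) h
  change (if g.1 s ∈ f.1 s then g.1 s else ∅) = g.1 s
  rw [if_pos hs]

lemma eps_congr_left {f f' g : Fn X S} (h : Large U (fun s => f.1 s = f'.1 s)) :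
    eps U f g ↔ eps U f' g := by
  constructor
  · intro h1
    exact large_mono (((eq_fs f f').comp₂ (eps_fs f g) And)) (eps_fs _ _)
      (fun s hs => by rw [← hs.1]; exact hs.2) ((large_and (eq_fs f f') (eps_fs f g)).2 ⟨h, h1⟩)
  · intro h1
    exact large_mono (((eq_fs f f').comp₂ (eps_fs f' g) And)) (eps_fs _ _)
      (fun s hs => by rw [hs.1]; exact hs.2) ((large_and (eq_fs f f') (eps_fs f' g)).2 ⟨h, h1⟩)

lemma eps_congr_right {f g g' : Fn X S} (h : Large U (fun s => g.1 s = g'.1 s)) :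
    eps U f g ↔ eps U f g' := by
  constructor
  · intro h1
    exact large_mono (((eq_fs g g').comp₂ (eps_fs f g) And)) (eps_fs _ _)
      (fun s hs => by rw [← hs.1]; exact hs.2) ((large_and (eq_fs g g') (eps_fs f g)).2 ⟨h, h1⟩)
  · intro h1
    exact large_mono (((eq_fs g g').comp₂ (eps_fs f g') And)) (eps_fs _ _)
      (fun s hs => by rw [hs.1]; exact hs.2) ((large_and (eq_fs g g') (eps_fs f g')).2 ⟨h, h1⟩)

lemma eqv_symm {f g : Fn X S} (h : Large U (fun s => f.1 s = g.1 s)) :
    Large U (fun s => g.1 s = f.1 s) :=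
  large_mono (eq_fs f g) (eq_fs g f) (fun _ hs => hs.symm) h

lemma coll_congr : ∀ f f' : Fn X S, Large U (fun s => f.1 s = f'.1 s) →
    coll U hσ f = coll U hσ f' := by
  intro f
  induction f using (eps_wf U hσ S).induction with
  | _ f ih =>
    intro f' hff
    ext z
    rw [mem_coll', mem_coll']
    constructor
    · rintro ⟨g, hg, hg2, rfl⟩
      have hg' : eps U g f' := (eps_congr_right U hff).1 hg
      refine ⟨cut g f', (eps_congr_left U (cut_eq U hg')).2 hg', cut_mem g f', ?_⟩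
      exact (ih g hg (cut g f') (eqv_symm U (cut_eq U hg'))).symm
    · rintro ⟨g, hg, hg2, rfl⟩
      have hg' : eps U g f := (eps_congr_right U hff).2 hg
      refine ⟨cut g f, (eps_congr_left U (cut_eq U hg')).2 hg', cut_mem g f, ?_⟩
      exact ih (cut g f) ((eps_congr_left U (cut_eq U hg')).2 hg') g (cut_eq U hg')

lemma mem_coll {f : Fn X S} {z : ZFSet.{u}} :
    z ∈ coll U hσ f ↔ ∃ g : Fn X S, eps U g f ∧ coll U hσ g = z := by
  rw [mem_coll']
  constructor
  · rintro ⟨g, h1, _, h2⟩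
    exact ⟨g, h1, h2⟩
  · rintro ⟨g, h1, rfl⟩
    refine ⟨cut g f, (eps_congr_left U (cut_eq U h1)).2 h1, cut_mem g f, ?_⟩
    exact coll_congr U hσ _ _ (cut_eq U h1)

/-- a choice function with finite support -/
lemma exists_fn {A : ZFSet.{u} → (∀ c, X c) → Prop} {F : Finset I} (hFS : (F : Set I) ⊆ S)
    (hA : ∀ z, Supp F (A z)) (h : Large U (fun s => ∃ z, A z s)) :
    ∃ g : Fn X S, Supp F g.1 ∧ Large U (fun s => A (g.1 s) s) := by
  classical
  have hA' : Supp F (fun s => fun z => A z s) := fun s s' hs => funext fun z => hA z s s' hs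
  let g0 : (∀ c, X c) → ZFSet.{u} := fun s => Classical.epsilon (fun z => A z s)
  have hg0 : Supp F g0 := fun s s' hs => by
    change Classical.epsilon (fun z => A z s) = Classical.epsilon (fun z => A z s')
    have := hA' s s' hs
    exact congrArg _ this
  refine ⟨⟨g0, F, hFS, hg0⟩, hg0, ?_⟩
  have h1 : Supp F (fun s => ∃ z, A z s) := fun s s' hs => by
    change (∃ z, A z s) = (∃ z, A z s')
    have := hA' s s' hs
    exact congrArg Exists this
  have h2 : Supp F (fun s => A (g0 s) s) := fun s s' hs => by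
    change A (g0 s) s = A (g0 s') s'
    rw [hg0 s s' hs]
    exact hA _ s s' hs
  exact large_mono ⟨F, h1⟩ ⟨F, h2⟩ (fun s hs => Classical.epsilon_spec hs) h

lemma coll_inj : ∀ f f' : Fn X S, coll U hσ f = coll U hσ f' →
    Large U (fun s => f.1 s = f'.1 s) := by
  classical
  intro f
  induction f using (eps_wf U hσ S).induction with
  | _ f ih =>
    intro f' hff
    by_contra hcon
    rw [← large_not (eq_fs f f')] at hcon
    obtain ⟨F, hFS, hF⟩ := f.2
    obtain ⟨G, hGS, hG⟩ := f'.2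
    have hFG : ((F ∪ G : Finset I) : Set I) ⊆ S := by
      rw [Finset.coe_union]; exact Set.union_subset hFS hGS
    have hF' := hF.mono (Finset.subset_union_left (s₂ := G))
    have hG' := hG.mono (Finset.subset_union_right (s₁ := F))
    have hA : ∀ z : ZFSet.{u}, Supp (F ∪ G) (fun s => ¬ (z ∈ f.1 s ↔ z ∈ f'.1 s)) := by
      intro z s s' hs
      change (¬ (z ∈ f.1 s ↔ z ∈ f'.1 s)) = (¬ (z ∈ f.1 s' ↔ z ∈ f'.1 s'))
      rw [hF' s s' hs, hG' s s' hs]
    have hne : Large U (fun s => ∃ z, ¬ (z ∈ f.1 s ↔ z ∈ f'.1 s)) := by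
      refine large_mono ((eq_fs f f').comp Not) (f.fs.comp₂ f'.fs
        (fun a b => ∃ z, ¬ (z ∈ a ↔ z ∈ b))) (fun s hs => ?_) hcon
      by_contra hno
      push Not at hno
      exact hs (ZFSet.ext hno)
    obtain ⟨g, _, hg⟩ := exists_fn U hFG hA hne
    have e1 := eps_fs g f
    have e2 := eps_fs g f'
    by_cases h1 : eps U g f
    · have h2 : ¬ eps U g f' := by
        intro h2
        have h3 := (large_and e1 e2).2 ⟨h1, h2⟩
        have h4 := (large_and (e1.comp₂ e2 And) (g.fs.comp₂ (f.fs.comp₂ f'.fs Prod.mk)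
          (fun a b => ¬ (a ∈ b.1 ↔ a ∈ b.2)))).2 ⟨h3, hg⟩
        obtain ⟨s, hs⟩ := large_exists h4
        exact hs.2 ⟨fun _ => hs.1.2, fun _ => hs.1.1⟩
      have h3 : coll U hσ g ∈ coll U hσ f' := by
        rw [← hff]
        exact (mem_coll U hσ).2 ⟨g, h1, rfl⟩
      obtain ⟨g', hg', hgg⟩ := (mem_coll U hσ).1 h3
      have h4 := ih g h1 g' hgg.symm
      exact h2 ((eps_congr_left U h4).2 hg')
    · have h2 : eps U g f' := by
        by_contra h2
        have h1' := (large_not e1).2 h1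
        have h2' := (large_not e2).2 h2
        have h3 := (large_and (e1.comp Not) (e2.comp Not)).2 ⟨h1', h2'⟩
        have h4 := (large_and ((e1.comp Not).comp₂ (e2.comp Not) And)
          (g.fs.comp₂ (f.fs.comp₂ f'.fs Prod.mk)
          (fun a b => ¬ (a ∈ b.1 ↔ a ∈ b.2)))).2 ⟨h3, hg⟩
        obtain ⟨s, hs⟩ := large_exists h4
        exact hs.2 ⟨fun h => absurd h hs.1.1, fun h => absurd h hs.1.2⟩
      have h3 : coll U hσ g ∈ coll U hσ f := by
        rw [hff]
        exact (mem_coll U hσ).2 ⟨g, h2, rfl⟩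
      obtain ⟨g', hg', hgg⟩ := (mem_coll U hσ).1 h3
      have h4 := ih g' hg' g hgg
      exact h1 ((eps_congr_left U h4).1 hg')

lemma coll_eq_iff {f f' : Fn X S} : coll U hσ f = coll U hσ f' ↔
    Large U (fun s => f.1 s = f'.1 s) :=
  ⟨coll_inj U hσ f f', coll_congr U hσ f f'⟩

lemma coll_mem_iff {f f' : Fn X S} : coll U hσ f ∈ coll U hσ f' ↔ eps U f f' := by
  constructor
  · intro h
    obtain ⟨g, hg, hgf⟩ := (mem_coll U hσ).1 h
    exact (eps_congr_left U (coll_inj U hσ _ _ hgf)).1 hg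
  · intro h
    exact (mem_coll U hσ).2 ⟨f, h, rfl⟩

/-- supports of finitely many functions -/
lemma common_supp (f : ℕ → Fn X S) (n : ℕ) : ∃ F : Finset I, (F : Set I) ⊆ S ∧
    ∀ i < n, Supp F (f i).1 := by
  classical
  induction n with
  | zero => exact ⟨∅, by simp, fun i hi => absurd hi (Nat.not_lt_zero i)⟩
  | succ n ih =>
    obtain ⟨F, hFS, hF⟩ := ih
    obtain ⟨G, hGS, hG⟩ := (f n).2
    refine ⟨F ∪ G, by rw [Finset.coe_union]; exact Set.union_subset hFS hGS, fun i hi => ?_⟩
    rcases Nat.lt_succ_iff_lt_or_eq.1 hi with h | h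
    · exact (hF i h).mono Finset.subset_union_left
    · subst h
      exact hG.mono Finset.subset_union_right

lemma supp_sat (φ : D0) {f : ℕ → Fn X S} {F : Finset I} (hF : ∀ i < φ.fv, Supp F (f i).1) :
    Supp F (fun s => φ.Sat (fun i => (f i).1 s)) := by
  intro s s' hs
  exact propext (φ.sat_congr _ _ fun i hi => hF i hi s s' hs)

lemma fs_sat (φ : D0) (f : ℕ → Fn X S) : FS (fun s => φ.Sat (fun i => (f i).1 s)) := by
  obtain ⟨F, _, hF⟩ := common_supp f φ.fv
  exact ⟨F, supp_sat φ hF⟩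

/-- Łoś's theorem for bounded formulas -/
theorem los (φ : D0) : ∀ f : ℕ → Fn X S, φ.Sat (fun i => coll U hσ (f i)) ↔
    Large U (fun s => φ.Sat (fun i => (f i).1 s)) := by
  classical
  induction φ with
  | mem i j => intro f; exact coll_mem_iff U hσ
  | eq i j => intro f; exact coll_eq_iff U hσ
  | neg φ ih =>
    intro f
    change ¬ φ.Sat _ ↔ _
    rw [ih f, ← large_not (fs_sat φ f)]
    rfl
  | and φ ψ ih1 ih2 =>
    intro f
    change φ.Sat _ ∧ ψ.Sat _ ↔ _
    rw [ih1 f, ih2 f, ← large_and (fs_sat φ f) (fs_sat ψ f)]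
    rfl
  | ball i φ ih =>
    intro f
    have hcons : ∀ g : Fn X S, φ.Sat (cons (coll U hσ g) (fun i => coll U hσ (f i))) ↔
        Large U (fun s => φ.Sat (cons (g.1 s) (fun i => (f i).1 s))) := by
      intro g
      have h1 := ih (cons g f)
      have e1 : (fun i => coll U hσ (cons g f i)) = cons (coll U hσ g) (fun i => coll U hσ (f i)) := by
        funext j
        cases j <;> rfl
      have e2 : ∀ s, (fun i => (cons g f i).1 s) = cons (g.1 s) (fun i => (f i).1 s) := by
        intro s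
        funext j
        cases j <;> rfl
      rw [e1] at h1
      rw [h1]
      simp only [e2]
    have hfs : ∀ g : Fn X S, FS (fun s => φ.Sat (cons (g.1 s) (fun i => (f i).1 s))) := by
      intro g
      have h1 := fs_sat φ (cons g f)
      have e2 : ∀ s, (fun i => (cons g f i).1 s) = cons (g.1 s) (fun i => (f i).1 s) := by
        intro s
        funext j
        cases j <;> rfl
      simpa only [e2] using h1
    have hball : FS (fun s => ∀ x ∈ (f i).1 s, φ.Sat (cons x (fun i => (f i).1 s))) :=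
      fs_sat (.ball i φ) f
    constructor
    · intro h
      by_contra hcon
      have hcon' : ¬ Large U (fun s => ∀ x ∈ (f i).1 s, φ.Sat (cons x (fun i => (f i).1 s))) := hcon
      rw [← large_not hball] at hcon'
      obtain ⟨F, hFS, hF⟩ := common_supp f (max (i + 1) φ.fv)
      have hA : ∀ z : ZFSet.{u}, Supp F (fun s => z ∈ (f i).1 s ∧
          ¬ φ.Sat (cons z (fun i => (f i).1 s))) := by
        intro z s s' hs
        have h1 : (f i).1 s = (f i).1 s' := hF i (lt_max_of_lt_left (Nat.lt_succ_self i)) s s' hs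
        have h2 : φ.Sat (cons z (fun i => (f i).1 s)) ↔ φ.Sat (cons z (fun i => (f i).1 s')) := by
          apply φ.sat_congr
          intro j hj
          cases j with
          | zero => rfl
          | succ j => exact hF j (lt_max_of_lt_right (Nat.lt_of_succ_lt hj)) s s' hs
        change (z ∈ (f i).1 s ∧ ¬ φ.Sat (cons z (fun i => (f i).1 s))) = (z ∈ (f i).1 s' ∧
          ¬ φ.Sat (cons z (fun i => (f i).1 s')))
        rw [h1, h2]
      have hex : Large U (fun s => ∃ z, z ∈ (f i).1 s ∧ ¬ φ.Sat (cons z (fun i => (f i).1 s))) := by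
        have hsupp : Supp F (fun s => ∃ z, z ∈ (f i).1 s ∧
            ¬ φ.Sat (cons z (fun i => (f i).1 s))) := by
          intro s s' hs
          exact congrArg Exists (funext fun z => hA z s s' hs)
        refine large_mono (hball.comp Not) ⟨F, hsupp⟩ (fun s hs => ?_) hcon'
        push Not at hs
        exact hs
      obtain ⟨g, hgF, hg⟩ := exists_fn U hFS hA hex
      have h1 := (large_and (eps_fs g (f i)) ((hfs g).comp Not)).1 hg
      have h2 := h (coll U hσ g) ((coll_mem_iff U hσ).2 h1.1)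
      rw [hcons g] at h2
      exact (large_not (hfs g)).1 h1.2 h2
    · intro h x hx
      obtain ⟨g, hg, rfl⟩ := (mem_coll U hσ).1 hx
      rw [hcons g]
      refine large_mono ((eps_fs g (f i)).comp₂ hball And) (hfs g) (fun s hs => hs.2 _ hs.1)
        ((large_and (eps_fs g (f i)) hball).2 ⟨hg, h⟩)

end

end Q210.IU
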