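import Pool.Agent.Q210.IU.Emb

set_option linter.unusedSectionVars false

open Filter Set

universe u v

namespace Q210.IU

lemma uf_comm {Y Z : Type u} (V : Ultrafilter Y) (W : Ultrafilter Z) (h : Cpl W Y)
    (P : Y → Z → Prop) : (∀ᶠ y in (V : Filter Y), ∀ᶠ z in (W : Filter Z), P y z) ↔
      ∀ᶠ z in (W : Filter Z), ∀ᶠ y in (V : Filter Y), P y z := by
  have h1 : ∀ᶠ z in (W : Filter Z), ∀ y, (P y z ↔ ∀ᶠ z' in (W : Filter Z), P y z') := by
    refine h (fun y z => (P y z ↔ ∀ᶠ z' in (W : Filter Z), P y z')) fun y => ?_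
    by_cases h2 : ∀ᶠ z' in (W : Filter Z), P y z'
    · exact h2.mono fun z hz => ⟨fun _ => h2, fun _ => hz⟩
    · exact (Ultrafilter.eventually_not.2 h2).mono fun z hz =>
        ⟨fun h3 => absurd h3 hz, fun h3 => absurd h3 h2⟩
  have h2 : (∀ᶠ z in (W : Filter Z), ∀ᶠ y in (V : Filter Y), P y z) ↔
      ∀ᶠ _z in (W : Filter Z), ∀ᶠ y in (V : Filter Y), ∀ᶠ z' in (W : Filter Z), P y z' := by
    refine eventually_congr (h1.mono fun z hz => ?_)
    exact eventually_congr (Eventually.of_forall hz)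
  rw [h2, Filter.eventually_const]

section
variable {I : Type u} [LinearOrder I] {X : I → Type u} {U : ∀ c, Ultrafilter (X c)}

lemma qf_congr' (l : List I) {A B : (∀ c, X c) → Prop} (h : ∀ s, A s ↔ B s) (s : ∀ c, X c) :
    qf U l A s ↔ qf U l B s :=
  ⟨qf_mono l (fun s => (h s).1) s, qf_mono l (fun s => (h s).2) s⟩

lemma qf_comm_one {c : I} {l : List I} (hl : ∀ d ∈ l, d ≠ c ∧ Cpl (U d) (X c))
    (A : (∀ c, X c) → Prop) : ∀ s, qf U (c :: l) A s ↔ qf U (l ++ [c]) A s := by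
  induction l with
  | nil => intro s; rfl
  | cons d l ih =>
    intro s
    have ih' := ih (fun e he => hl e (by simp [he]))
    have hd := hl d (by simp)
    change qf U (c :: d :: l) A s ↔ qf U (d :: (l ++ [c])) A s
    rw [qf_cons, qf_cons]
    simp only [← ih']
    simp only [qf_cons]
    rw [uf_comm (U c) (U d) hd.2]
    refine eventually_congr (Eventually.of_forall fun t => eventually_congr
      (Eventually.of_forall fun t' => ?_))
    rw [Function.update_comm hd.1]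

lemma qf_comm (l₁ l₂ : List I) (h : ∀ c ∈ l₁, ∀ d ∈ l₂, d ≠ c ∧ Cpl (U d) (X c)) :
    ∀ (A : (∀ c, X c) → Prop) s, qf U (l₁ ++ l₂) A s ↔ qf U (l₂ ++ l₁) A s := by
  induction l₁ with
  | nil => intro A s; rw [List.nil_append, List.append_nil]
  | cons c l₁ ih =>
    intro A s
    have ih' := ih (fun e he => h e (by simp [he]))
    change qf U (c :: (l₁ ++ l₂)) A s ↔ _
    rw [qf_cons]
    simp only [ih']
    rw [← qf_cons]
    change qf U ((c :: l₂) ++ l₁) A s ↔ _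
    rw [qf_append, qf_comm_one (h c (by simp)), ← qf_append, List.append_assoc]
    rfl

variable {S₁ S₂ : Set I}

open Classical in
/-- coordinates in `S` from `s'`, the others from `s` -/
noncomputable def mix (S : Set I) (s' s : ∀ c, X c) : ∀ c, X c := fun c => if c ∈ S then s' c else s c

lemma mix_update (S : Set I) (s' s : ∀ c, X c) {c : I} (hc : c ∈ S) (t : X c) :
    mix S (Function.update s' c t) s = Function.update (mix S s' s) c t := by
  classical
  funext d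
  unfold mix
  by_cases hdc : d = c
  · subst hdc
    rw [Function.update_self, if_pos hc, Function.update_self]
  · rw [Function.update_of_ne hdc, Function.update_of_ne hdc]

lemma mix_self (S : Set I) (s : ∀ c, X c) : mix S s s = s := by
  classical
  funext d
  unfold mix
  split_ifs <;> rfl

lemma qf_mix (S : Set I) (l : List I) (hl : ∀ c ∈ l, c ∈ S) (A : (∀ c, X c) → Prop)
    (s : ∀ c, X c) : ∀ s', qf U l (fun s' => A (mix S s' s)) s' ↔ qf U l A (mix S s' s) := by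
  induction l with
  | nil => intro s'; rfl
  | cons c l ih =>
    intro s'
    rw [qf_cons, qf_cons]
    refine eventually_congr (Eventually.of_forall fun t => ?_)
    rw [ih (fun d hd => hl d (by simp [hd])), mix_update S s' s (hl c (by simp))]

lemma sort_split (h12 : ∀ c ∈ S₁, ∀ d ∈ S₂, c < d) {F₁ F₂ : Finset I} (h1 : (F₁ : Set I) ⊆ S₁)
    (h2 : (F₂ : Set I) ⊆ S₂) : (F₁ ∪ F₂).sort (· ≤ ·) = F₁.sort (· ≤ ·) ++ F₂.sort (· ≤ ·) := by
  symm
  apply List.Perm.eq_of_pairwise (le := (· ≤ ·))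
  · intro a b _ _ h1 h2
    exact le_antisymm h1 h2
  · rw [List.pairwise_append]
    refine ⟨F₁.pairwise_sort _, F₂.pairwise_sort _, ?_⟩
    intro a ha b hb
    exact (h12 a (h1 (by simpa using ha)) b (h2 (by simpa using hb))).le
  · exact (F₁ ∪ F₂).pairwise_sort _
  · rw [List.perm_ext_iff_of_nodup _ ((F₁ ∪ F₂).sort_nodup _)]
    · intro a
      simp
    · rw [List.nodup_append]
      refine ⟨F₁.sort_nodup _, F₂.sort_nodup _, ?_⟩
      intro a ha b hb
      exact (h12 a (h1 (by simpa using ha)) b (h2 (by simpa using hb))).ne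

lemma supp_mix {β : Type v} {F : Finset I} {f : (∀ c, X c) → β} (hF : Supp F f) {F₁ : Finset I}
    (hF₁ : ∀ c ∈ F, c ∈ S₁ → c ∈ F₁) (s : ∀ c, X c) : Supp F₁ (fun s' => f (mix S₁ s' s)) := by
  classical
  intro s' s'' hs
  apply hF
  intro c hc
  unfold mix
  by_cases h : c ∈ S₁
  · rw [if_pos h, if_pos h]
    exact hs c (hF₁ c hc h)
  · rw [if_neg h, if_neg h]

lemma mix_congr {F F₂ : Finset I} (hF₂ : ∀ c ∈ F, c ∉ S₁ → c ∈ F₂) {s s'' : ∀ c, X c}
    (hs : ∀ c ∈ F₂, s c = s'' c) (s' : ∀ c, X c) : ∀ c ∈ F, mix S₁ s' s c = mix S₁ s' s'' c := by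
  classical
  intro c hc
  unfold mix
  by_cases h : c ∈ S₁
  · rw [if_pos h, if_pos h]
  · rw [if_neg h, if_neg h]
    exact hs c (hF₂ c hc h)

/-- Fubini's theorem in the reversed order -/
lemma large_fubini (h12 : ∀ c ∈ S₁, ∀ d ∈ S₂, c < d) (hX : ∀ d ∈ S₂, ∀ c ∈ S₁, Cpl (U d) (X c))
    {A : (∀ c, X c) → Prop} {F : Finset I} (hFS : (F : Set I) ⊆ S₁ ∪ S₂) (hF : Supp F A) :
    Large U A ↔ Large U (fun s => Large U (fun s' => A (mix S₁ s' s))) := by
  classical
  obtain ⟨s⟩ := nonempty_pt U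
  let F₁ := F.filter (· ∈ S₁)
  let F₂ := F.filter (· ∉ S₁)
  have hF₁ : (F₁ : Set I) ⊆ S₁ := fun c hc => (Finset.mem_filter.1 (Finset.mem_coe.1 hc)).2
  have hF₂ : (F₂ : Set I) ⊆ S₂ := fun c hc => by
    have h1 := Finset.mem_filter.1 (Finset.mem_coe.1 hc)
    exact (hFS (Finset.mem_coe.2 h1.1)).resolve_left h1.2
  have hFF : F = F₁ ∪ F₂ := (Finset.filter_union_filter_not_eq (· ∈ S₁) F).symm
  have hmem1 : ∀ c ∈ F, c ∈ S₁ → c ∈ F₁ := fun c hc h => Finset.mem_filter.2 ⟨hc, h⟩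
  have hmem2 : ∀ c ∈ F, c ∉ S₁ → c ∈ F₂ := fun c hc h => Finset.mem_filter.2 ⟨hc, h⟩
  have hB : Supp F₂ (fun s => Large U (fun s' => A (mix S₁ s' s))) := by
    intro s s'' hs
    have : (fun s' => A (mix S₁ s' s)) = (fun s' => A (mix S₁ s' s'')) :=
      funext fun s' => hF _ _ (mix_congr hmem2 hs s')
    exact congrArg (Large U) this
  rw [large_iff hF s, large_iff hB s, hFF, sort_split h12 hF₁ hF₂, qf_comm, qf_append]
  · have key : ∀ s, qf U (F₁.sort (· ≤ ·)) A s ↔ Large U (fun s' => A (mix S₁ s' s)) := by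
      intro s
      rw [large_iff (supp_mix hF hmem1 s) s, qf_mix, mix_self]
      intro c hc
      exact hF₁ (by simpa using hc)
    exact qf_congr' _ key s
  · intro c hc d hd
    have hc' : c ∈ S₁ := hF₁ (by simpa using hc)
    have hd' : d ∈ S₂ := hF₂ (by simpa using hd)
    exact ⟨(h12 c hc' d hd').ne', hX d hd' c hc'⟩

end

section
variable {I : Type u} [LinearOrder I] {X : I → Type u} (U : ∀ c, Ultrafilter (X c))
variable [WellFoundedLT I] (hσ : ∀ c, Cpl (U c) (ULift.{u} ℕ)) {S₁ S₂ : Set I}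

/-- the section of `f` -/
noncomputable def sec (f : Fn X (S₁ ∪ S₂)) (s : ∀ c, X c) : Fn X S₁ := by
  classical
  exact ⟨fun s' => f.1 (mix S₁ s' s), by
    obtain ⟨F, _, hF⟩ := f.2
    exact ⟨F.filter (· ∈ S₁), fun c hc => (Finset.mem_filter.1 (Finset.mem_coe.1 hc)).2,
      supp_mix hF (fun c hc h => Finset.mem_filter.2 ⟨hc, h⟩) s⟩⟩

/-- integrate the coordinates in `S₁` -/
noncomputable def Phi (f : Fn X (S₁ ∪ S₂)) : Fn X S₂ := by
  classical
  exact ⟨fun s => coll U hσ (sec f s), by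
    obtain ⟨F, hFS, hF⟩ := f.2
    refine ⟨F.filter (· ∉ S₁), fun c hc => ?_, ?_⟩
    · have h1 := Finset.mem_filter.1 (Finset.mem_coe.1 hc)
      exact (hFS (Finset.mem_coe.2 h1.1)).resolve_left h1.2
    · intro s s'' hs
      have : sec f s = sec f s'' := by
        apply Subtype.ext
        funext s'
        exact hF _ _ (mix_congr (fun c hc h => Finset.mem_filter.2 ⟨hc, h⟩) hs s')
      exact congrArg (coll U hσ) this⟩

lemma phi_eps (h12 : ∀ c ∈ S₁, ∀ d ∈ S₂, c < d) (hX : ∀ d ∈ S₂, ∀ c ∈ S₁, Cpl (U d) (X c))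
    (g f : Fn X (S₁ ∪ S₂)) : eps U (Phi U hσ g) (Phi U hσ f) ↔ eps U g f := by
  classical
  obtain ⟨F, hFS, hF⟩ := f.2
  obtain ⟨G, hGS, hG⟩ := g.2
  have hFG : ((F ∪ G : Finset I) : Set I) ⊆ S₁ ∪ S₂ := by
    rw [Finset.coe_union]; exact Set.union_subset hFS hGS
  have hF' := hF.mono (Finset.subset_union_left (s₂ := G))
  have hG' := hG.mono (Finset.subset_union_right (s₁ := F))
  have hA : Supp (F ∪ G) (fun s => g.1 s ∈ f.1 s) := fun s s' hs => by
    change (g.1 s ∈ f.1 s) = (g.1 s' ∈ f.1 s')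
    rw [hF' s s' hs, hG' s s' hs]
  unfold eps
  rw [large_fubini h12 hX hFG hA]
  have key : ∀ s, ((Phi U hσ g).1 s ∈ (Phi U hσ f).1 s) ↔
      Large U (fun s' => g.1 (mix S₁ s' s) ∈ f.1 (mix S₁ s' s)) := fun s => coll_mem_iff U hσ
  exact iff_of_eq (congrArg (Large U) (funext fun s => propext (key s)))

lemma phi_surj (h12 : ∀ c ∈ S₁, ∀ d ∈ S₂, c < d)
    (hfin : ∀ d ∈ S₂, Cpl (U d) {F : Finset I // (F : Set I) ⊆ S₁})
    (h : Fn X S₂) (f : Fn X (S₁ ∪ S₂)) (hf : eps U h (Phi U hσ f)) :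
    ∃ g : Fn X (S₁ ∪ S₂), Large U (fun s => (Phi U hσ g).1 s = h.1 s) := by
  classical
  -- choose functions representing the elements of the inner model
  have hch : ∀ z : ZFSet.{u}, ∃ k : Fn X S₁, ∃ G : Finset I, (G : Set I) ⊆ S₁ ∧ Supp G k.1 ∧
      (z ∈ Set.range (coll U hσ (S := S₁)) → coll U hσ k = z) := by
    intro z
    by_cases hz : z ∈ Set.range (coll U hσ (S := S₁))
    · obtain ⟨k, hk⟩ := hz
      obtain ⟨G, hGS, hG⟩ := k.2
      exact ⟨k, G, hGS, hG, fun _ => hk⟩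
    · exact ⟨cst S₁ ∅, ∅, by simp, Supp.const _, fun h => absurd h hz⟩
  choose k G hGS hG hk using hch
  obtain ⟨H, hHS, hH⟩ := h.2
  -- the support is constant almost everywhere
  have h1 : ∃ t : {F : Finset I // (F : Set I) ⊆ S₁}, Large U (fun s => G (h.1 s) = t.1) := by
    refine large_choose (F := H) (fun c hc => hfin c (hHS hc)) (fun t s s' hs => ?_) ?_
    · rw [hH s s' hs]
    · refine large_of_forall ?_ fun s => ⟨⟨G (h.1 s), hGS _⟩, rfl⟩
      exact h.fs.comp fun z => ∃ t : {F : Finset I // (F : Set I) ⊆ S₁}, G z = t.1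
  obtain ⟨⟨G0, hG0⟩, hG0L⟩ := h1
  let g : Fn X (S₁ ∪ S₂) := ⟨fun s => if G (h.1 s) = G0 then (k (h.1 s)).1 s else ∅, H ∪ G0, by
      rw [Finset.coe_union]
      exact Set.union_subset (fun c hc => Or.inr (hHS hc)) (fun c hc => Or.inl (hG0 hc)), by
    intro s s' hs
    have e1 := hH s s' fun c hc => hs c (by simp [hc])
    change (if G (h.1 s) = G0 then (k (h.1 s)).1 s else ∅) =
      (if G (h.1 s') = G0 then (k (h.1 s')).1 s' else ∅)
    rw [e1]
    by_cases h2 : G (h.1 s') = G0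
    · rw [if_pos h2, if_pos h2]
      apply hG (h.1 s')
      intro c hc
      exact hs c (by rw [h2] at hc; simp [hc])
    · rw [if_neg h2, if_neg h2]⟩
  refine ⟨g, ?_⟩
  refine large_mono ((h.fs.comp fun z => G z = G0).comp₂ (eps_fs h (Phi U hσ f)) And)
    (eq_fs (Phi U hσ g) h) (fun s hs => ?_)
    ((large_and (h.fs.comp fun z => G z = G0) (eps_fs h (Phi U hσ f))).2 ⟨hG0L, hf⟩)
  -- now compute the section
  have hmix : ∀ s', h.1 (mix S₁ s' s) = h.1 s := by
    intro s'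
    apply hH
    intro c hc
    unfold mix
    rw [if_neg]
    intro hcS
    exact lt_irrefl c (h12 c hcS c (hHS hc))
  have hr : h.1 s ∈ Set.range (coll U hσ (S := S₁)) := by
    obtain ⟨q, _, hq⟩ := (mem_coll U hσ).1 hs.2
    exact ⟨q, hq⟩
  have e2 : sec g s = k (h.1 s) := by
    apply Subtype.ext
    funext s'
    change (if G (h.1 (mix S₁ s' s)) = G0 then (k (h.1 (mix S₁ s' s))).1 (mix S₁ s' s) else ∅) = _
    rw [hmix s', if_pos hs.1]
    apply hG
    intro c hc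
    unfold mix
    rw [if_pos (hGS _ hc)]
  change coll U hσ (sec g s) = h.1 s
  rw [e2]
  exact hk _ hr

theorem coll_phi (h12 : ∀ c ∈ S₁, ∀ d ∈ S₂, c < d)
    (hX : ∀ d ∈ S₂, ∀ c ∈ S₁, Cpl (U d) (X c))
    (hfin : ∀ d ∈ S₂, Cpl (U d) {F : Finset I // (F : Set I) ⊆ S₁}) :
    ∀ f : Fn X (S₁ ∪ S₂), coll U hσ f = coll U hσ (Phi U hσ f) := by
  intro f
  induction f using (eps_wf U hσ (S₁ ∪ S₂)).induction with
  | _ f ih =>
    ext z
    rw [mem_coll, mem_coll]
    constructor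
    · rintro ⟨g, hg, rfl⟩
      exact ⟨Phi U hσ g, (phi_eps U hσ h12 hX g f).2 hg, (ih g hg).symm⟩
    · rintro ⟨h, hh, rfl⟩
      obtain ⟨g, hg⟩ := phi_surj U hσ h12 hfin h f hh
      have h1 : eps U (Phi U hσ g) (Phi U hσ f) := (eps_congr_left U hg).2 hh
      have h2 := (phi_eps U hσ h12 hX g f).1 h1
      exact ⟨g, h2, (ih g h2).trans (coll_congr U hσ _ _ hg)⟩

theorem E_comp (h12 : ∀ c ∈ S₁, ∀ d ∈ S₂, c < d)
    (hX : ∀ d ∈ S₂, ∀ c ∈ S₁, Cpl (U d) (X c))
    (hfin : ∀ d ∈ S₂, Cpl (U d) {F : Finset I // (F : Set I) ⊆ S₁}) (x : ZFSet.{u}) :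
    E U hσ (S₁ ∪ S₂) x = E U hσ S₂ (E U hσ S₁ x) := by
  unfold E
  rw [coll_phi U hσ h12 hX hfin]
  rfl

end

end Q210.IU
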