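import Pool.Agent.Q210.IU.Sys

set_option linter.unusedSectionVars false

open Filter Set Cardinal

universe u v

namespace Q210.IU

/-- `κ` is a measurable cardinal: it is uncountable and there is a nonprincipal `κ`-complete
ultrafilter on `κ`. -/
def IsMeasurable (κ : Cardinal.{u}) : Prop :=
  ℵ₀ < κ ∧ ∃ W : Ultrafilter κ.ord.ToType, (∀ a, {a}ᶜ ∈ W) ∧
    ∀ T : Type u, #T < κ → ∀ A : T → Set κ.ord.ToType, (∀ t, A t ∈ W) → (⋂ t, A t) ∈ W

/-- the property of the ultrafilter -/
def IsMeas {κ : Cardinal.{u}} (W : Ultrafilter κ.ord.ToType) : Prop :=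
  (∀ a, {a}ᶜ ∈ W) ∧
    ∀ T : Type u, #T < κ → ∀ A : T → Set κ.ord.ToType, (∀ t, A t ∈ W) → (⋂ t, A t) ∈ W

lemma IsMeas.cpl {κ : Cardinal.{u}} {W : Ultrafilter κ.ord.ToType} (h : IsMeas W) {T : Type u}
    (hT : #T < κ) : Cpl W T := by
  intro P hP
  have h1 := h.2 T hT (fun t => {y | P t y}) hP
  have h2 : (⋂ t, {y | P t y}) = {y | ∀ t, P t y} := by
    ext y
    simp
  rw [h2] at h1
  exact h1

lemma IsMeas.small {κ : Cardinal.{u}} {W : Ultrafilter κ.ord.ToType} (h : IsMeas W)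
    {A : Set κ.ord.ToType} (hA : #A < κ) : Aᶜ ∈ W := by
  have h1 := h.2 A hA (fun t => {t.1}ᶜ) (fun t => h.1 t.1)
  refine Filter.mem_of_superset h1 ?_
  intro y hy hyA
  exact (Set.mem_iInter.1 hy ⟨y, hyA⟩) rfl

lemma IsMeas.isInaccessible {κ : Cardinal.{u}} (h0 : ℵ₀ < κ) {W : Ultrafilter κ.ord.ToType}
    (h : IsMeas W) : IsInaccessible κ := by
  classical
  refine ⟨h0, ?_, ?_⟩
  · by_contra hcon
    push Not at hcon
    rw [← Ordinal.cof_toType] at hcon
    obtain ⟨s, hs, hs2⟩ := Order.exists_cof_eq (α := κ.ord.ToType)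
    rw [← hs2] at hcon
    have h1 : (⋂ b : s, (Set.Iio b.1)ᶜ \ {b.1}) ∈ W := by
      refine h.2 s hcon _ fun b => ?_
      have h2 := h.small (A := Set.Iio b.1) (by simpa using mk_Iio_lt b.1)
      exact Filter.inter_mem h2 (h.1 b.1)
    obtain ⟨y, hy⟩ := W.nonempty_of_mem h1
    obtain ⟨b, hb, hyb⟩ := hs y
    have h3 := Set.mem_iInter.1 hy ⟨b, hb⟩
    rcases hyb.lt_or_eq with h4 | h4
    · exact h3.1 h4
    · exact h3.2 h4
  · intro x hx
    by_contra hcon
    push Not at hcon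
    induction x using Cardinal.inductionOn with
    | _ L =>
      have h1 : #κ.ord.ToType ≤ #(Set L) := by simpa using hcon
      obtain ⟨e⟩ := h1
      have h2 : ∀ l : L, ∃ b : Prop, {a : κ.ord.ToType | (l ∈ e a) ↔ b} ∈ W := by
        intro l
        by_cases h3 : {a : κ.ord.ToType | l ∈ e a} ∈ W
        · exact ⟨True, by simpa using h3⟩
        · refine ⟨False, ?_⟩
          have h4 := Ultrafilter.compl_mem_iff_notMem.2 h3
          have h5 : {a : κ.ord.ToType | l ∈ e a ↔ False} = {a : κ.ord.ToType | l ∈ e a}ᶜ := by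
            ext a
            simp
          rw [h5]
          exact h4
      choose b hb using h2
      have h3 := h.2 L hx _ hb
      obtain ⟨a, ha⟩ := W.nonempty_of_mem h3
      obtain ⟨a', ha', haa⟩ := W.nonempty_of_mem (Filter.inter_mem h3 (h.1 a))
      apply haa
      apply e.injective
      ext l
      have e1 := Set.mem_iInter.1 ha l
      have e2 := Set.mem_iInter.1 ha' l
      exact (Iff.trans e2 e1.symm)

end Q210.IU
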