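import Pool.Agent.Q210.IU.Comp
import Pool.Agent.Q210.IU.Meas

set_option linter.unusedSectionVars false

open Filter Set Cardinal

universe u v

namespace Q210.IU

lemma pow_lt_of_strongLimit {l a b : Cardinal.{u}} (hl : IsStrongLimit l) (ha : a < l)
    (hb : b < l) : a ^ b < l := by
  calc a ^ b ≤ (2 ^ a) ^ b := Cardinal.power_le_power_right (cantor a).le
    _ = 2 ^ (a * b) := by rw [← Cardinal.power_mul]
    _ < l := hl.isStrongPrelimit (mul_lt_of_lt hl.aleph0_le ha hb)

lemma mk_finset_lt {l : Cardinal.{u}} (hl : IsStrongLimit l) {α : Type u} (h : #α < l) :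
    #(Finset α) < l := by
  refine lt_of_le_of_lt ?_ (hl.isStrongPrelimit h)
  rw [← Cardinal.mk_set]
  exact Cardinal.mk_le_of_injective (f := fun F : Finset α => (F : Set α)) Finset.coe_injective

section
variable {I : Type u} [LinearOrder I] {X : I → Type u} (U : ∀ c, Ultrafilter (X c))
variable [WellFoundedLT I] (hσ : ∀ c, Cpl (U c) (ULift.{u} ℕ)) (S : Set I)

open Classical in
/-- the function coded by a finite set of coordinates and a function on graphs -/
noncomputable def dec (T : Type u) (j : T → ZFSet.{u})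
    (p : Finset S × (Finset (Σ c : S, X c.1) → T)) : Fn X S :=
  ⟨fun s => j (p.2 (p.1.image fun c => ⟨c, s c.1⟩)), p.1.image Subtype.val, by
    intro c hc
    obtain ⟨d, _, rfl⟩ := Finset.mem_image.1 (Finset.mem_coe.1 hc)
    exact d.2, by
    intro s s' hs
    have : p.1.image (fun c => (⟨c, s c.1⟩ : Σ c : S, X c.1)) =
        p.1.image (fun c => (⟨c, s' c.1⟩ : Σ c : S, X c.1)) := by
      apply Finset.image_congr
      intro c hc
      have := hs c.1 (Finset.mem_image.2 ⟨c, hc, rfl⟩)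
      simp only [this]
    exact congrArg (fun q => j (p.2 q)) this⟩

open Classical in
lemma dec_surj (s₀ : ∀ c, X c) (T : Type u) (j : T → ZFSet.{u}) (g : Fn X S)
    (hg : ∀ s, g.1 s ∈ Set.range j) : ∃ p, dec S T j p = g := by
  obtain ⟨F, hFS, hF⟩ := g.2
  choose r hr using hg
  -- decode a finite graph
  let rd : Finset (Σ c : S, X c.1) → ∀ c, X c := fun A c =>
    if h : ∃ (hc : c ∈ S) (x : X c), (⟨⟨c, hc⟩, x⟩ : Σ c : S, X c.1) ∈ A then
      (Classical.choose (Classical.choose_spec h)) else s₀ c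
  let F' : Finset S := F.preimage Subtype.val (Subtype.val_injective.injOn)
  refine ⟨⟨F', fun A => r (rd A)⟩, ?_⟩
  apply Subtype.ext
  funext s
  change j (r (rd (F'.image fun c => ⟨c, s c.1⟩))) = g.1 s
  rw [hr]
  apply hF
  intro c hc
  have hcS := hFS (Finset.mem_coe.2 hc)
  have hex : ∃ (hc : c ∈ S) (x : X c), (⟨⟨c, hc⟩, x⟩ : Σ c : S, X c.1) ∈
      F'.image fun c => (⟨c, s c.1⟩ : Σ c : S, X c.1) :=
    ⟨hcS, s c, Finset.mem_image.2 ⟨⟨c, hcS⟩, Finset.mem_preimage.2 hc, rfl⟩⟩
  change (if h : ∃ (hc : c ∈ S) (x : X c), (⟨⟨c, hc⟩, x⟩ : Σ c : S, X c.1) ∈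
      F'.image fun c => (⟨c, s c.1⟩ : Σ c : S, X c.1) then
      (Classical.choose (Classical.choose_spec h)) else s₀ c) = s c
  rw [dif_pos hex]
  have h1 := Classical.choose_spec (Classical.choose_spec hex)
  obtain ⟨d, _, hd⟩ := Finset.mem_image.1 h1
  have h2 := Sigma.mk.inj_iff.1 hd
  obtain ⟨rfl, h3⟩ := h2
  exact (eq_of_heq h3).symm

theorem card_E_lt {l : Cardinal.{u}} (hl : IsStrongLimit l) (hS : #S < l)
    (hX : #(Σ c : S, X c.1) < l) {x : ZFSet.{u}} (hx : x.card < l) :
    (E U hσ S x).card < l := by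
  classical
  obtain ⟨s₀⟩ := nonempty_pt U
  let t : ZFSet.{u} := insert ∅ x
  have ht : t.card < l := by
    refine lt_of_le_of_lt ZFSet.card_insert_le ?_
    exact add_lt_of_lt hl.aleph0_le hx (one_lt_aleph0.trans_le hl.aleph0_le)
  let T : Type u := Shrink.{u} t
  let j : T → ZFSet.{u} := fun q => ((equivShrink t).symm q).1
  have hj : ∀ z ∈ t, z ∈ Set.range j := by
    intro z hz
    refine ⟨equivShrink t ⟨z, hz⟩, ?_⟩
    change ((equivShrink t).symm (equivShrink t ⟨z, hz⟩)).1 = z
    rw [Equiv.symm_apply_apply]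
  let C := Finset S × (Finset (Σ c : S, X c.1) → T)
  have hC : #C < l := by
    have h1 : #(Finset S) < l := mk_finset_lt hl hS
    have h2 : #(Finset (Σ c : S, X c.1)) < l := mk_finset_lt hl hX
    have h3 : #(Finset (Σ c : S, X c.1) → T) < l := by
      have : #(Finset (Σ c : S, X c.1) → T) = #T ^ #(Finset (Σ c : S, X c.1)) := by simp
      rw [this]
      exact pow_lt_of_strongLimit hl ht h2
    have h4 : #C = #(Finset S) * #(Finset (Σ c : S, X c.1) → T) := by
      simp only [C, Cardinal.mk_prod, Cardinal.lift_id]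
    rw [h4]
    exact mul_lt_of_lt hl.aleph0_le h1 h3
  have hsub : E U hσ S x ⊆ ZFSet.range (fun p : C => coll U hσ (dec S T j p)) := by
    intro z hz
    unfold E at hz
    rw [mem_coll'] at hz
    obtain ⟨g, h1, h2, rfl⟩ := hz
    rw [ZFSet.mem_range]
    have h3 : ∀ s, g.1 s ∈ Set.range j := by
      intro s
      apply hj
      have h4 := h2 s
      unfold tv at h4
      rw [ZFSet.mem_insert_iff] at h4
      rw [ZFSet.mem_insert_iff]
      rcases h4 with h4 | h4
      · exact Or.inl h4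
      · obtain ⟨_, h5⟩ := ZFSet.mem_iUnion.1 h4
        exact Or.inr h5
    obtain ⟨p, hp⟩ := dec_surj S s₀ T j g h3
    exact ⟨p, congrArg (coll U hσ) hp⟩
  refine lt_of_le_of_lt (ZFSet.card_mono hsub) (lt_of_le_of_lt ?_ hC)
  have := ZFSet.lift_card_range_le (f := fun p : C => coll U hσ (dec S T j p))
  simpa using this

end

end Q210.IU
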