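import Pool.Agent.Q210.IU.Coll

set_option linter.unusedSectionVars false

open Filter Set

universe u v

namespace Q210.IU

variable {I : Type u} [LinearOrder I] {X : I → Type u} {U : ∀ c, Ultrafilter (X c)}

/-- the constant function -/
def cst (S : Set I) (x : ZFSet.{u}) : Fn X S := ⟨fun _ => x, ∅, by simp, Supp.const x⟩

/-- If the ultrafilters are `T`-complete then one can choose an element of `T`. -/
lemma large_choose {T : Type u} {F : Finset I} (hU : ∀ c ∈ F, Cpl (U c) T)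
    {P : T → (∀ c, X c) → Prop} (hP : ∀ t, Supp F (P t)) (h : Large U (fun s => ∃ t, P t s)) :
    ∃ t, Large U (P t) := by
  by_contra hno
  push Not at hno
  obtain ⟨s⟩ := nonempty_pt U
  have hS : Supp F (fun s => ∃ t, P t s) := fun s s' hs =>
    congrArg Exists (funext fun t => hP t s s' hs)
  rw [large_iff hS s] at h
  have h1 : ∀ t, qf U (F.sort (· ≤ ·)) (fun s => ¬ P t s) s := by
    intro t
    rw [qf_not]
    rw [← large_iff (hP t) s]
    exact hno t
  have h2 := qf_forall (F.sort (· ≤ ·)) (fun c hc => hU c (by simpa using hc)) _ s h1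
  have h3 : qf U (F.sort (· ≤ ·)) (fun s => ¬ ∃ t, P t s) s :=
    qf_mono _ (fun s hs => by push Not; exact hs) s h2
  rw [qf_not] at h3
  exact h3 h

variable [WellFoundedLT I] (U) (hσ : ∀ c, Cpl (U c) (ULift.{u} ℕ))

/-- the embedding given by the coordinates in `S` -/
noncomputable def E (S : Set I) (x : ZFSet.{u}) : ZFSet.{u} := coll U hσ (cst S x)

variable (S : Set I)

lemma mem_E {x z : ZFSet.{u}} : z ∈ E U hσ S x ↔
    ∃ g : Fn X S, Large U (fun s => g.1 s ∈ x) ∧ coll U hσ g = z :=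
  mem_coll U hσ

lemma E_mem {x y : ZFSet.{u}} : E U hσ S x ∈ E U hσ S y ↔ x ∈ y := by
  unfold E
  rw [coll_mem_iff]
  exact large_const (U := U) (x ∈ y)

lemma E_inj {x y : ZFSet.{u}} : E U hσ S x = E U hσ S y ↔ x = y := by
  unfold E
  rw [coll_eq_iff]
  exact large_const (U := U) (x = y)

lemma E_D0 (φ : D0) (v : ℕ → ZFSet.{u}) : φ.Sat (fun i => E U hσ S (v i)) ↔ φ.Sat v := by
  have := los U hσ (S := S) φ (fun i => cst S (v i))
  exact this.trans (large_const (U := U) (φ.Sat v))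

lemma E_S1 (φ : S1) : ∀ v : ℕ → ZFSet.{u}, φ.Sat v → φ.Sat (fun i => E U hσ S (v i)) := by
  induction φ with
  | base φ => intro v h; exact (E_D0 U hσ S φ v).2 h
  | ex φ ih =>
    rintro v ⟨x, hx⟩
    have h1 := ih _ hx
    refine ⟨E U hσ S x, ?_⟩
    have e : cons (E U hσ S x) (fun i => E U hσ S (v i)) = fun i => E U hσ S (cons x v i) := by
      funext j
      cases j <;> rfl
    change φ.Sat (cons (E U hσ S x) (fun i => E U hσ S (v i)))
    rw [e]
    exact h1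

lemma E_mono {x y : ZFSet.{u}} (h : x ⊆ y) : E U hσ S x ⊆ E U hσ S y := by
  intro z hz
  rw [mem_E] at hz ⊢
  obtain ⟨g, hg, rfl⟩ := hz
  exact ⟨g, large_mono (g.fs.comp fun a => a ∈ x) (g.fs.comp fun a => a ∈ y)
    (fun s hs => h hs) hg, rfl⟩

lemma E_inter (x y : ZFSet.{u}) : E U hσ S (x ∩ y) = E U hσ S x ∩ E U hσ S y := by
  ext z
  rw [ZFSet.mem_inter]
  constructor
  · intro hz
    exact ⟨E_mono U hσ S (fun w hw => (ZFSet.mem_inter.1 hw).1) hz,
      E_mono U hσ S (fun w hw => (ZFSet.mem_inter.1 hw).2) hz⟩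
  · rintro ⟨h1, h2⟩
    rw [mem_E] at h1 ⊢
    obtain ⟨g, hg, rfl⟩ := h1
    refine ⟨g, ?_, rfl⟩
    have h3 : Large U (fun s => g.1 s ∈ y) := (coll_mem_iff U hσ (f := g) (f' := cst S y)).1 h2
    have h4 := (large_and (g.fs.comp fun a => a ∈ x) (g.fs.comp fun a => a ∈ y)).2 ⟨hg, h3⟩
    exact large_mono ((g.fs.comp fun a => a ∈ x).comp₂ (g.fs.comp fun a => a ∈ y) And)
      (g.fs.comp fun a => a ∈ x ∩ y) (fun s hs => ZFSet.mem_inter.2 hs) h4

lemma E_trans {x : ZFSet.{u}} (hx : x.IsTransitive) : (E U hσ S x).IsTransitive := by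
  intro y hy z hz
  rw [mem_E] at hy
  obtain ⟨g, hg, rfl⟩ := hy
  obtain ⟨k, hk, rfl⟩ := (mem_coll U hσ).1 hz
  rw [mem_E]
  refine ⟨k, ?_, rfl⟩
  exact large_mono ((eps_fs k g).comp₂ (g.fs.comp fun a => a ∈ x) And) (k.fs.comp fun a => a ∈ x)
    (fun s hs => hx _ hs.2 hs.1) ((large_and (eps_fs k g) (g.fs.comp fun a => a ∈ x)).2 ⟨hk, hg⟩)

lemma coll_trans {g : Fn X S} (hg : Large U (fun s => (g.1 s).IsTransitive)) :
    (coll U hσ g).IsTransitive := by
  intro y hy z hz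
  obtain ⟨f, hf, rfl⟩ := (mem_coll U hσ).1 hy
  obtain ⟨k, hk, rfl⟩ := (mem_coll U hσ).1 hz
  rw [mem_coll]
  refine ⟨k, ?_, rfl⟩
  have h1 := (large_and (eps_fs k f) (eps_fs f g)).2 ⟨hk, hf⟩
  have h2 := (large_and ((eps_fs k f).comp₂ (eps_fs f g) And)
    (g.fs.comp fun a => a.IsTransitive)).2 ⟨h1, hg⟩
  exact large_mono (((eps_fs k f).comp₂ (eps_fs f g) And).comp₂
    (g.fs.comp fun a => a.IsTransitive) And) (eps_fs k g)
    (fun s hs => hs.2 _ hs.1.2 hs.1.1) h2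

lemma E_ord {x : ZFSet.{u}} (hx : x.IsOrdinal) : (E U hσ S x).IsOrdinal := by
  rw [ZFSet.isOrdinal_iff_forall_mem_isTransitive]
  refine ⟨E_trans U hσ S hx.isTransitive, ?_⟩
  intro y hy
  rw [mem_E] at hy
  obtain ⟨g, hg, rfl⟩ := hy
  refine coll_trans U hσ S (large_mono (g.fs.comp fun a => a ∈ x)
    (g.fs.comp fun a => a.IsTransitive) (fun s hs => ?_) hg)
  exact (ZFSet.isOrdinal_iff_forall_mem_isTransitive.1 hx).2 _ hs

lemma le_E (o : Ordinal.{u}) : o.toZFSet ⊆ E U hσ S o.toZFSet := by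
  induction o using WellFoundedLT.induction with
  | _ o ih =>
    intro z hz
    obtain ⟨a, ha, rfl⟩ := Ordinal.mem_toZFSet_iff.1 hz
    have h1 := ih a ha
    have h2 : E U hσ S a.toZFSet ∈ E U hσ S o.toZFSet := (E_mem U hσ S).2 hz
    exact (ZFSet.isOrdinal_toZFSet a).mem_of_subset_of_mem
      (E_ord U hσ S (ZFSet.isOrdinal_toZFSet o)) h1 h2

end Q210.IU
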