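import Pool.Agent.Q210.IU.Count

set_option linter.unusedSectionVars false

open Filter Set Cardinal ZFSet

universe u v

namespace Q210.IU

lemma card_lt_of_rank {l : Cardinal.{u}} (hl : IsInaccessible l) {z : ZFSet.{u}}
    (hz : z.rank < l.ord) : z.card < l := by
  calc z.card ≤ (V_ z.rank).card := ZFSet.card_mono (ZFSet.subset_vonNeumann_self z)
    _ = preBeth z.rank := ZFSet.card_vonNeumann _
    _ < preBeth l.ord := preBeth_strictMono hz
    _ = l := hl.preBeth_ord

lemma mem_of_card_lt {l : Cardinal.{u}} {x : ZFSet.{u}} (hx : x.IsOrdinal) (h : x.card < l) :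
    x ∈ l.ord.toZFSet := by
  rw [Ordinal.mem_toZFSet_iff]
  refine ⟨x.rank, ?_, hx.toZFSet_rank_eq⟩
  rw [Cardinal.lt_ord, ← Ordinal.card_toZFSet, hx.toZFSet_rank_eq]
  exact h

section
variable {I : Type u} [LinearOrder I] {X : I → Type u} (U : ∀ c, Ultrafilter (X c))
variable [WellFoundedLT I] (hσ : ∀ c, Cpl (U c) (ULift.{u} ℕ)) (S : Set I)

theorem E_fix {l : Cardinal.{u}} (hl : IsInaccessible l)
    (hS : ∀ c ∈ S, ∀ T : Type u, #T < l → Cpl (U c) T) (z : ZFSet.{u}) :
    z.rank < l.ord → E U hσ S z = z := by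
  induction z using ZFSet.inductionOn with
  | _ z ih =>
    intro hz
    ext w
    constructor
    · intro hw
      rw [mem_E] at hw
      obtain ⟨g, hg, rfl⟩ := hw
      obtain ⟨F, hFS, hF⟩ := g.2
      have h1 : ∃ t : Shrink.{u} z, Large U (fun s => g.1 s = ((equivShrink z).symm t).1) := by
        refine large_choose (F := F) (fun c hc => hS c (hFS hc) _ (card_lt_of_rank hl hz))
          (fun t s s' hs => ?_) ?_
        · change (g.1 s = _) = (g.1 s' = _)
          rw [hF s s' hs]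
        · refine large_mono (g.fs.comp fun a => a ∈ z)
            (g.fs.comp fun a => ∃ t : Shrink.{u} z, a = ((equivShrink z).symm t).1)
            (fun s hs => ?_) hg
          refine ⟨equivShrink z ⟨g.1 s, hs⟩, ?_⟩
          rw [Equiv.symm_apply_apply]
      obtain ⟨t, ht⟩ := h1
      have hmem : ((equivShrink z).symm t).1 ∈ z := ((equivShrink z).symm t).2
      have h2 : coll U hσ g = E U hσ S ((equivShrink z).symm t).1 := by
        unfold E
        rw [coll_eq_iff]
        exact ht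
      rw [h2, ih _ hmem ((ZFSet.rank_lt_of_mem hmem).trans hz)]
      exact hmem
    · intro hw
      rw [← ih w hw ((ZFSet.rank_lt_of_mem hw).trans hz)]
      exact (E_mem U hσ S).2 hw

/-- continuity at limits of cofinality `ω` -/
theorem E_lim {a : ℕ → Ordinal.{u}} {b : Ordinal.{u}} (hab : ∀ η < b, ∃ n, η < a n)
    (ha : ∀ n, E U hσ S (a n).toZFSet ⊆ b.toZFSet) :
    E U hσ S b.toZFSet = b.toZFSet := by
  apply subset_antisymm
  · intro w hw
    rw [mem_E] at hw
    obtain ⟨g, hg, rfl⟩ := hw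
    obtain ⟨F, hFS, hF⟩ := g.2
    have h1 : ∃ t : ULift.{u} ℕ, Large U (fun s => g.1 s ∈ (a t.down).toZFSet) := by
      refine large_choose (F := F) (fun c _ => hσ c) (fun t s s' hs => ?_) ?_
      · change (g.1 s ∈ _) = (g.1 s' ∈ _)
        rw [hF s s' hs]
      · refine large_mono (g.fs.comp fun x => x ∈ b.toZFSet)
          (g.fs.comp fun x => ∃ t : ULift.{u} ℕ, x ∈ (a t.down).toZFSet) (fun s hs => ?_) hg
        obtain ⟨η, hη, h2⟩ := Ordinal.mem_toZFSet_iff.1 hs
        obtain ⟨n, hn⟩ := hab η hη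
        exact ⟨⟨n⟩, by rw [← h2]; exact Ordinal.toZFSet_mem_toZFSet_iff.2 hn⟩
    obtain ⟨⟨n⟩, hn⟩ := h1
    exact ha n ((mem_E U hσ S).2 ⟨g, hn, rfl⟩)
  · exact le_E U hσ S b

end

end Q210.IU
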