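import Pool.Agent.Q210.IU.Tail

set_option linter.unusedSectionVars false

open Filter Set Cardinal ZFSet

universe u v

namespace Q210.IU

variable {κ : ℕ → Cardinal.{u}} {W : ∀ n, Ultrafilter (κ n).ord.ToType} {B : ℕ → Set (Kt κ)}
variable (hκ : StrictMono κ) (h0 : ∀ n, ℵ₀ < κ n) (hW : ∀ n, IsMeas (W n))
  (hB : ∀ j, #(B j) = κ j)

include hκ hB in
/-- a subset of the supremum fixed by all the embeddings of level `n` is determined by its
intersection with the `n`-th measurable -/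
lemma determined {n : ℕ} {x y : ZFSet.{u}} (hx : x ⊆ (⨆ n, κ n).ord.toZFSet)
    (hfx : ∀ j, Et W h0 hW (blk κ B n j) x = x) (hfy : ∀ j, Et W h0 hW (blk κ B n j) y = y)
    (h : x ∩ (κ n).ord.toZFSet = y ∩ (κ n).ord.toZFSet) : x ⊆ y := by
  intro z hz
  obtain ⟨η, hη, rfl⟩ := Ordinal.mem_toZFSet_iff.1 (hx hz)
  obtain ⟨j, _, hj⟩ := exists_lt hκ hη 0
  have h1 : η.toZFSet ∈ Et W h0 hW (blk κ B n j) (κ n).ord.toZFSet :=
    le_Et_blk h0 hW hB n j (Ordinal.toZFSet_mem_toZFSet_iff.2 hj)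
  have h2 : η.toZFSet ∈ Et W h0 hW (blk κ B n j) (x ∩ (κ n).ord.toZFSet) := by
    unfold Et
    rw [E_inter, ZFSet.mem_inter]
    refine ⟨?_, h1⟩
    have := hfx j
    unfold Et at this
    rw [this]
    exact hz
  rw [h] at h2
  unfold Et at h2
  rw [E_inter, ZFSet.mem_inter] at h2
  have := hfy j
  unfold Et at this
  rw [this] at h2
  exact h2.1

include hκ hB in
/-- in a large family some element is moved at every level -/
lemma exists_moved {D : ZFSet.{u}} (hD : ∀ x ∈ D, x ⊆ (⨆ n, κ n).ord.toZFSet)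
    (hc : (⨆ n, κ n) < D.card) :
    ∃ x ∈ D, ∀ n, ∃ j, Et W h0 hW (blk κ B n j) x ≠ x := by
  by_contra hno
  push Not at hno
  let P : ℕ → ZFSet.{u} → Prop := fun n x => ∀ j, Et W h0 hW (blk κ B n j) x = x
  let D' : ℕ → ZFSet.{u} := fun n => ZFSet.sep (P n) D
  have h1 : D ⊆ ZFSet.iUnion D' := by
    intro x hx
    obtain ⟨n, hn⟩ := hno x hx
    rw [ZFSet.mem_iUnion]
    exact ⟨n, ZFSet.mem_sep.2 ⟨hx, hn⟩⟩
  have h2 : ∀ n, (D' n).card ≤ ⨆ n, κ n := by
    intro n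
    have h3 : (D' n).card ≤ (ZFSet.powerset (κ n).ord.toZFSet).card := by
      rw [← Cardinal.lift_le.{u + 1}, ← ZFSet.cardinalMk_coe_sort, ← ZFSet.cardinalMk_coe_sort]
      refine Cardinal.mk_le_of_injective (f := fun x : D' n =>
        (⟨x.1 ∩ (κ n).ord.toZFSet, by
          rw [ZFSet.mem_powerset]
          intro z hz
          exact (ZFSet.mem_inter.1 hz).2⟩ : ↥(ZFSet.powerset (κ n).ord.toZFSet))) ?_
      intro x y hxy
      have h4 := Subtype.ext_iff.1 hxy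
      have hx := ZFSet.mem_sep.1 x.2
      have hy := ZFSet.mem_sep.1 y.2
      apply Subtype.ext
      exact subset_antisymm (determined hκ h0 hW hB (hD _ hx.1) hx.2 hy.2 h4)
        (determined hκ h0 hW hB (hD _ hy.1) hy.2 hx.2 h4.symm)
    refine h3.trans ?_
    rw [ZFSet.card_powerset, Ordinal.card_toZFSet, Cardinal.card_ord]
    have h4 := (inacc h0 hW (n + 1)).isStrongPrelimit (hκ (Nat.lt_succ_self n))
    exact h4.le.trans (lt_sup hκ (n + 1)).le
  have h3 : D.card ≤ ⨆ n, κ n := by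
    refine (ZFSet.card_mono h1).trans ?_
    have h4 := ZFSet.lift_card_iUnion_le_sum_card (f := D')
    have h5 : Cardinal.sum (fun i => (D' i).card) ≤ Cardinal.sum (fun _ : ℕ => ⨆ n, κ n) :=
      Cardinal.sum_le_sum _ _ h2
    have h6 : Cardinal.sum (fun _ : ℕ => ⨆ n, κ n) = ℵ₀ * ⨆ n, κ n := by
      rw [Cardinal.sum_const]
      simp
    have h7 : ℵ₀ * (⨆ n, κ n) = ⨆ n, κ n :=
      Cardinal.aleph0_mul_eq ((h0 0).le.trans (lt_sup hκ 0).le)
    have h8 := h4.trans (h5.trans (h6.trans h7).le)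
    simpa using h8
  exact absurd hc (not_lt.2 h3)

theorem no_long_wo (κ : ℕ → Cardinal.{u}) (hκ : StrictMono κ) (hm : ∀ n, IsMeasurable (κ n))
    (D : ZFSet.{u}) (hD : ∀ x ∈ D, x ⊆ (⨆ n, κ n).ord.toZFSet) (hc : (⨆ n, κ n) < D.card)
    (R : ZFSet.{u} → ZFSet.{u} → Prop) (hR : ∀ x y, R x y → x ∈ D ∧ y ∈ D)
    (htri : ∀ x ∈ D, ∀ y ∈ D, x ≠ y → R x y ∨ R y x)
    (hwf : ∀ f : ℕ → ZFSet.{u}, ¬ ∀ i, R (f (i + 1)) (f i) ∧ f (i + 1) ≠ f i)
    (p : ZFSet.{u}) (hp : p.rank < (⨆ n, κ n).ord) (φ : S1)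
    (hφ : ∀ x y, R x y ↔ φ.Sat (cons x (cons y (cons (⨆ n, κ n).ord.toZFSet (fun _ => p))))) :
    False := by
  classical
  have h0 : ∀ n, ℵ₀ < κ n := fun n => (hm n).1
  choose W hW using fun n => (hm n).2
  have hW : ∀ n, IsMeas (W n) := hW
  have hBex : ∀ j, ∃ B : Set (Kt κ), #B = κ j := by
    intro j
    have h1 : κ j ≤ #(Kt κ) := by
      simpa [Kt] using (lt_sup hκ j).le
    exact Cardinal.le_mk_iff_exists_set.1 h1
  choose B hB using hBex
  obtain ⟨x, hxD, hx⟩ := exists_moved (W := W) (B := B) hκ h0 hW hB hD hc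
  choose a ha using hx
  obtain ⟨N, _, hN⟩ := exists_lt hκ hp 0
  -- the sequence of levels
  let n : ℕ → ℕ := fun k => Nat.rec N (fun _ m => max m (a m) + 1) k
  have hn1 : ∀ k, n (k + 1) = max (n k) (a (n k)) + 1 := fun k => rfl
  have hn : StrictMono n := strictMono_nat_of_lt_succ fun k => by
    rw [hn1]
    exact Nat.lt_succ_of_le (le_max_left _ _)
  have hn0 : ∀ k, N ≤ n k := fun k => hn.monotone (Nat.zero_le k)
  let b : ℕ → ℕ := fun k => a (n k)
  have hb : ∀ k, b k < n (k + 1) := fun k => by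
    rw [hn1]
    exact Nat.lt_succ_of_le (le_max_right _ _)
  -- preservation
  have hpres : ∀ S : Set (It κ), Et W h0 hW S (⨆ n, κ n).ord.toZFSet = (⨆ n, κ n).ord.toZFSet →
      Et W h0 hW S p = p → ∀ x y, R x y → R (Et W h0 hW S x) (Et W h0 hW S y) := by
    intro S hS1 hS2 x y hxy
    rw [hφ] at hxy ⊢
    have h1 := E_S1 (Ut κ W) (Ut_sigma h0 hW) S φ _ hxy
    have h2 : (fun i => E (Ut κ W) (Ut_sigma h0 hW) S
        (cons x (cons y (cons (⨆ n, κ n).ord.toZFSet (fun _ => p))) i)) =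
        cons (Et W h0 hW S x) (cons (Et W h0 hW S y)
          (cons (⨆ n, κ n).ord.toZFSet (fun _ => p))) := by
      funext i
      match i with
      | 0 => rfl
      | 1 => rfl
      | 2 => exact hS1
      | (i + 3) => exact hS2
    rw [h2] at h1
    exact h1
  have hinj : ∀ S : Set (It κ), ∀ x y, x ≠ y → Et W h0 hW S x ≠ Et W h0 hW S y := by
    intro S x y hxy h
    exact hxy ((E_inj _ _ _).1 h)
  -- closure of `D`
  have hother : ∀ x ∈ D, ∃ y ∈ D, x ≠ y := by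
    intro x hx
    by_contra hno
    push Not at hno
    have h1 : D ⊆ {x} := fun y hy => by rw [ZFSet.mem_singleton]; exact (hno y hy).symm
    have h2 := ZFSet.card_mono h1
    rw [ZFSet.card_singleton] at h2
    exact absurd (hc.trans_le h2) (not_lt.2 ((one_le_aleph0.trans (h0 0).le).trans
      (lt_sup hκ 0).le))
  have hclos : ∀ S : Set (It κ), Et W h0 hW S (⨆ n, κ n).ord.toZFSet =
      (⨆ n, κ n).ord.toZFSet → Et W h0 hW S p = p → ∀ x ∈ D, Et W h0 hW S x ∈ D := by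
    intro S hS1 hS2 x hx
    obtain ⟨y, hy, hxy⟩ := hother x hx
    rcases htri x hx y hy hxy with h | h
    · exact (hR _ _ (hpres S hS1 hS2 _ _ h)).1
    · exact (hR _ _ (hpres S hS1 hS2 _ _ h)).2
  -- the embeddings used
  have hblk1 : ∀ k, Et W h0 hW (blk κ B (n k) (b k)) (⨆ n, κ n).ord.toZFSet =
      (⨆ n, κ n).ord.toZFSet := fun k => Et_blk_sup hκ h0 hW hB _ _
  have hblk2 : ∀ k, Et W h0 hW (blk κ B (n k) (b k)) p = p := fun k =>
    Et_fix h0 hW (n := N) (fun c hc => by rw [hc.1]; exact hn0 k) hN hκ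
  have htl1 : ∀ m, Et W h0 hW (tl B n b m) (⨆ n, κ n).ord.toZFSet =
      (⨆ n, κ n).ord.toZFSet := fun m => Et_tl_sup hκ h0 hW hB hn hb m
  have htl2 : ∀ m, Et W h0 hW (tl B n b m) p = p := fun m =>
    Et_fix h0 hW (n := N) (fun c hc => (hn0 m).trans (tl_level hn m c hc)) hN hκ
  -- moved upwards
  have hup : ∀ k, R x (Et W h0 hW (blk κ B (n k) (b k)) x) := by
    intro k
    have hne := ha (n k)
    rcases htri _ hxD _ (hclos _ (hblk1 k) (hblk2 k) x hxD) hne.symm with h | h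
    · exact h
    · exfalso
      let f : ℕ → ZFSet.{u} := fun i => (Et W h0 hW (blk κ B (n k) (b k)))^[i] x
      have hf : ∀ i, f (i + 1) = Et W h0 hW (blk κ B (n k) (b k)) (f i) := fun i => by
        simp only [f]
        rw [Function.iterate_succ_apply']
      refine hwf f fun i => ?_
      induction i with
      | zero => exact ⟨h, hne⟩
      | succ i ih =>
        rw [hf (i + 1)]
        have e := hf i
        rw [e]
        rw [e] at ih
        exact ⟨hpres _ (hblk1 k) (hblk2 k) _ _ ih.1, hinj _ _ _ ih.2⟩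
  refine hwf (fun m => Et W h0 hW (tl B n b m) x) fun m => ?_
  have h1 : Et W h0 hW (tl B n b m) x = Et W h0 hW (tl B n b (m + 1))
      (Et W h0 hW (blk κ B (n m) (b m)) x) := Et_tl_succ hκ h0 hW hB hn hb m x
  change R (Et W h0 hW (tl B n b (m + 1)) x) (Et W h0 hW (tl B n b m) x) ∧
    Et W h0 hW (tl B n b (m + 1)) x ≠ Et W h0 hW (tl B n b m) x
  rw [h1]
  exact ⟨hpres _ (htl1 _) (htl2 _) _ _ (hup m), hinj _ _ _ (ha (n m)).symm⟩

end Q210.IU
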