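import Mathlib

/-!
# Finitely supported events along a well-ordered family of ultrafilters
-/

set_option linter.unusedSectionVars false

open Filter Set

universe u v

namespace Q210.IU

section
variable {I : Type u} [LinearOrder I] {X : I → Type u} (U : ∀ c, Ultrafilter (X c))

/-- iterated quantification -/
def qf : List I → ((∀ c, X c) → Prop) → (∀ c, X c) → Prop
  | [], A, s => A s
  | c :: l, A, s => ∀ᶠ t in (U c : Filter (X c)), qf l A (Function.update s c t)

lemma qf_cons (c : I) (l : List I) (A : (∀ c, X c) → Prop) (s : ∀ c, X c) :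
    qf U (c :: l) A s ↔ ∀ᶠ t in (U c : Filter (X c)), qf U l A (Function.update s c t) := Iff.rfl

/-- `f` depends only on the coordinates in `F` -/
def Supp (F : Finset I) {β : Type v} (f : (∀ c, X c) → β) : Prop :=
  ∀ s s', (∀ c ∈ F, s c = s' c) → f s = f s'

variable {U}

lemma Supp.mono {F G : Finset I} {β : Type v} {f : (∀ c, X c) → β} (h : Supp F f) (hFG : F ⊆ G) :
    Supp G f := fun s s' hs => h s s' fun c hc => hs c (hFG hc)

lemma Supp.const {β : Type v} (b : β) : Supp (X := X) ∅ (fun _ => b) := fun _ _ _ => rfl

lemma qf_dep {F : Finset I} {A : (∀ c, X c) → Prop} (hA : Supp F A) :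
    ∀ (l : List I) (s s' : ∀ c, X c), (∀ c ∈ F, c ∉ l → s c = s' c) →
      (qf U l A s ↔ qf U l A s') := by
  intro l
  induction l with
  | nil =>
    intro s s' h
    exact iff_of_eq (hA s s' fun c hc => h c hc (by simp))
  | cons c l ih =>
    intro s s' h
    unfold qf
    refine eventually_congr (Eventually.of_forall fun t => ih _ _ ?_)
    intro d hd hdl
    by_cases hdc : d = c
    · subst hdc
      rw [Function.update_self, Function.update_self]
    · rw [Function.update_of_ne hdc, Function.update_of_ne hdc]
      exact h d hd (by simp [hdc, hdl])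

lemma qf_sublist {F : Finset I} {A : (∀ c, X c) → Prop} (hA : Supp F A) {l L : List I}
    (h : l.Sublist L) : L.Nodup → (∀ c ∈ L, c ∉ l → c ∉ F) → ∀ s, (qf U L A s ↔ qf U l A s) := by
  induction h with
  | slnil => intro _ _ s; rfl
  | @cons l L a h ih =>
    intro hnd hF s
    have ha : a ∉ l := fun h' => (List.nodup_cons.1 hnd).1 (h.subset h')
    have haF : a ∉ F := hF a (by simp) ha
    have ih' := ih (List.nodup_cons.1 hnd).2 (fun c hc hcl => hF c (by simp [hc]) hcl)
    rw [qf_cons]
    constructor
    · intro h1
      obtain ⟨t, ht⟩ := h1.exists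
      rw [ih'] at ht
      refine (qf_dep hA l _ _ ?_).1 ht
      intro c hc _
      have : c ≠ a := fun h => haF (h ▸ hc)
      rw [Function.update_of_ne this]
    · intro h1
      refine Eventually.of_forall fun t => ?_
      rw [ih']
      refine (qf_dep hA l _ _ ?_).1 h1
      intro c hc _
      have : c ≠ a := fun h => haF (h ▸ hc)
      rw [Function.update_of_ne this]
  | @cons_cons l L a h ih =>
    intro hnd hF s
    unfold qf
    refine eventually_congr (Eventually.of_forall fun t => ih (List.nodup_cons.1 hnd).2 ?_ _)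
    intro c hc hcl
    by_cases hca : c = a
    · subst hca
      exact absurd hc (List.nodup_cons.1 hnd).1
    · exact hF c (by simp [hc]) (by simp [hca, hcl])

lemma sort_sublist {F G : Finset I} (h : F ⊆ G) : (F.sort (· ≤ ·)).Sublist (G.sort (· ≤ ·)) := by
  have h2 : (G.sort (· ≤ ·)).filter (· ∈ F) = F.sort (· ≤ ·) := by
    apply List.Perm.eq_of_pairwise (le := (· ≤ ·))
    · intro a b _ _ h1 h2
      exact le_antisymm h1 h2
    · exact (G.pairwise_sort _).filter _
    · exact F.pairwise_sort _
    · rw [List.perm_ext_iff_of_nodup ((G.sort_nodup _).filter _) (F.sort_nodup _)]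
      intro a
      simp only [List.mem_filter, Finset.mem_sort, decide_eq_true_eq]
      exact ⟨fun h => h.2, fun ha => ⟨h ha, ha⟩⟩
  rw [← h2]
  exact List.filter_sublist

lemma qF_mono {F G : Finset I} {A : (∀ c, X c) → Prop} (hA : Supp F A) (h : F ⊆ G)
    (s : ∀ c, X c) : qf U (G.sort (· ≤ ·)) A s ↔ qf U (F.sort (· ≤ ·)) A s := by
  refine qf_sublist hA (sort_sublist h) (G.sort_nodup _) ?_ s
  intro c _ hc
  simpa using hc

/-- the event `A` has measure one -/
def Large (U : ∀ c, Ultrafilter (X c)) (A : (∀ c, X c) → Prop) : Prop :=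
  ∃ F : Finset I, Supp F A ∧ ∀ s, qf U (F.sort (· ≤ ·)) A s

lemma large_iff {F : Finset I} {A : (∀ c, X c) → Prop} (hA : Supp F A) (s : ∀ c, X c) :
    Large U A ↔ qf U (F.sort (· ≤ ·)) A s := by
  constructor
  · rintro ⟨G, hG, h⟩
    have h1 := (qF_mono (U := U) hG (Finset.subset_union_right (s₁ := F)) s).2 (h s)
    exact (qF_mono hA Finset.subset_union_left s).1 h1
  · intro h
    refine ⟨F, hA, fun s' => ?_⟩
    refine (qf_dep hA _ s s' ?_).1 h
    intro c hc hc'
    simp [hc] at hc'

lemma qf_not (l : List I) (A : (∀ c, X c) → Prop) :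
    ∀ s, qf U l (fun s => ¬ A s) s ↔ ¬ qf U l A s := by
  induction l with
  | nil => intro s; rfl
  | cons c l ih =>
    intro s
    unfold qf
    simp only [ih]
    rw [Ultrafilter.eventually_not]

lemma qf_and (l : List I) (A B : (∀ c, X c) → Prop) :
    ∀ s, qf U l (fun s => A s ∧ B s) s ↔ qf U l A s ∧ qf U l B s := by
  induction l with
  | nil => intro s; rfl
  | cons c l ih =>
    intro s
    unfold qf
    simp only [ih]
    rw [Filter.eventually_and]

lemma qf_mono (l : List I) {A B : (∀ c, X c) → Prop} (h : ∀ s, A s → B s) :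
    ∀ s, qf U l A s → qf U l B s := by
  induction l with
  | nil => intro s; exact h s
  | cons c l ih =>
    intro s
    unfold qf
    exact fun h1 => h1.mono fun t ht => ih _ ht

lemma qf_append (l l' : List I) (A : (∀ c, X c) → Prop) :
    ∀ s, qf U (l ++ l') A s ↔ qf U l (qf U l' A) s := by
  induction l with
  | nil => intro s; rfl
  | cons c l ih =>
    intro s
    unfold qf
    exact eventually_congr (Eventually.of_forall fun t => ih _)

/-- finite support -/
def FS {β : Type v} (f : (∀ c, X c) → β) : Prop := ∃ F : Finset I, Supp F f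

lemma nonempty_pt (U : ∀ c, Ultrafilter (X c)) : Nonempty (∀ c, X c) :=
  ⟨fun c => ((U c).neBot.nonempty).some⟩

lemma FS.const {β : Type v} (b : β) : FS (X := X) (fun _ => b) := ⟨∅, Supp.const b⟩

lemma FS.comp {β γ : Type*} {f : (∀ c, X c) → β} (h : FS f) (g : β → γ) :
    FS (fun s => g (f s)) := by
  obtain ⟨F, hF⟩ := h
  exact ⟨F, fun s s' hs => congrArg g (hF s s' hs)⟩

lemma FS.comp₂ {β γ δ : Type*} {f : (∀ c, X c) → β} {f' : (∀ c, X c) → γ} (h : FS f) (h' : FS f')
    (g : β → γ → δ) : FS (fun s => g (f s) (f' s)) := by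
  obtain ⟨F, hF⟩ := h
  obtain ⟨F', hF'⟩ := h'
  classical
  refine ⟨F ∪ F', fun s s' hs => ?_⟩
  have h1 := hF s s' fun c hc => hs c (by simp [hc])
  have h2 := hF' s s' fun c hc => hs c (by simp [hc])
  change g (f s) (f' s) = g (f s') (f' s')
  rw [h1, h2]

variable {A B : (∀ c, X c) → Prop}

lemma large_not (hA : FS A) : Large U (fun s => ¬ A s) ↔ ¬ Large U A := by
  obtain ⟨F, hF⟩ := hA
  obtain ⟨s⟩ := nonempty_pt U
  have hF' : Supp F (fun s => ¬ A s) := fun s s' hs => by
    change (¬ A s) = (¬ A s')
    rw [hF s s' hs]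
  rw [large_iff hF s, large_iff hF' s, qf_not]

lemma large_and (hA : FS A) (hB : FS B) :
    Large U (fun s => A s ∧ B s) ↔ Large U A ∧ Large U B := by
  classical
  obtain ⟨F, hF⟩ := hA
  obtain ⟨G, hG⟩ := hB
  obtain ⟨s⟩ := nonempty_pt U
  have h1 := hF.mono (Finset.subset_union_left (s₂ := G))
  have h2 := hG.mono (Finset.subset_union_right (s₁ := F))
  have h3 : Supp (F ∪ G) (fun s => A s ∧ B s) := fun s s' hs => by
    change (A s ∧ B s) = (A s' ∧ B s')
    rw [h1 s s' hs, h2 s s' hs]
  rw [large_iff h1 s, large_iff h2 s, large_iff h3 s, qf_and]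

lemma large_mono (hA : FS A) (hB : FS B) (h : ∀ s, A s → B s) (hl : Large U A) : Large U B := by
  classical
  obtain ⟨F, hF⟩ := hA
  obtain ⟨G, hG⟩ := hB
  obtain ⟨s⟩ := nonempty_pt U
  have h1 := hF.mono (Finset.subset_union_left (s₂ := G))
  have h2 := hG.mono (Finset.subset_union_right (s₁ := F))
  rw [large_iff h1 s] at hl
  rw [large_iff h2 s]
  exact qf_mono _ h s hl

lemma large_congr (hA : FS A) (hB : FS B) (h : ∀ s, A s ↔ B s) : Large U A ↔ Large U B :=
  ⟨large_mono hA hB fun s => (h s).1, large_mono hB hA fun s => (h s).2⟩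

lemma large_const (p : Prop) : Large U (fun _ => p) ↔ p := by
  obtain ⟨s⟩ := nonempty_pt U
  rw [large_iff (Supp.const p) s]
  simp [qf]

lemma large_of_forall (hA : FS A) (h : ∀ s, A s) : Large U A :=
  large_mono (FS.const True) hA (fun s _ => h s) ((large_const True).2 trivial)

lemma large_exists (h : Large U A) : ∃ s, A s := by
  by_contra hno
  push Not at hno
  obtain ⟨F, hF, h⟩ := h
  obtain ⟨s⟩ := nonempty_pt U
  have h1 := qf_mono (F.sort (· ≤ ·)) (B := fun _ => False) (fun s hs => hno s hs) s (h s)
  have h2 := (large_iff (U := U) (F := F) (A := fun _ => False)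
    ((Supp.const False).mono (Finset.empty_subset F)) s).2 h1
  exact (large_const False).1 h2

/-- `V` is closed under intersections indexed by `T`. -/
def Cpl {Y : Type u} (V : Ultrafilter Y) (T : Type u) : Prop :=
  ∀ P : T → Y → Prop, (∀ t, ∀ᶠ y in V, P t y) → ∀ᶠ y in V, ∀ t, P t y

lemma qf_forall {T : Type u} (l : List I) (hl : ∀ c ∈ l, Cpl (U c) T) (P : T → (∀ c, X c) → Prop) :
    ∀ s, (∀ t, qf U l (P t) s) → qf U l (fun s => ∀ t, P t s) s := by
  induction l with
  | nil => intro s h; exact h
  | cons c l ih =>
    intro s h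
    unfold qf at h ⊢
    have h1 := hl c (by simp) _ h
    exact h1.mono fun y hy => ih (fun d hd => hl d (by simp [hd])) _ hy

/-- `σ`-complete ultrafilters: countably many events of measure one have a common point. -/
lemma common [WellFoundedLT I] (hσ : ∀ c, Cpl (U c) (ULift.{u} ℕ)) (A : ℕ → (∀ c, X c) → Prop)
    (hA : ∀ n, Large U (A n)) : ∃ s, ∀ n, A n s := by
  classical
  choose F hF h using hA
  obtain ⟨p⟩ := nonempty_pt U
  let L : ℕ → List I := fun n => (F n).sort (· ≤ ·)
  have hg : ∀ (c : I) (s : ∀ c, X c), ∃ t : X c, ∀ n,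
      qf U (c :: (L n).filter (c < ·)) (A n) s →
      qf U ((L n).filter (c < ·)) (A n) (Function.update s c t) := by
    intro c s
    have h1 := hσ c (fun n t => qf U (c :: (L n.down).filter (c < ·)) (A n.down) s →
      qf U ((L n.down).filter (c < ·)) (A n.down) (Function.update s c t)) (by
        rintro ⟨n⟩
        by_cases h2 : qf U (c :: (L n).filter (c < ·)) (A n) s
        · have h3 := h2
          unfold qf at h3
          exact h3.mono fun t ht _ => ht
        · exact Eventually.of_forall fun t h3 => absurd h3 h2)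
    obtain ⟨t, ht⟩ := h1.exists
    exact ⟨t, fun n => ht ⟨n⟩⟩
  choose g hg using hg
  let S : ∀ c, X c := WellFounded.fix (wellFounded_lt (α := I))
    (fun c ih => g c (fun d => if h : d < c then ih d h else p d))
  have hS : ∀ c, S c = g c (fun d => if d < c then S d else p d) := by
    intro c
    have := WellFounded.fix_eq (wellFounded_lt (α := I))
      (fun c (ih : ∀ d, d < c → X d) => g c (fun d => if h : d < c then ih d h else p d)) c
    change S c = _ at this
    rw [this]
    rfl
  refine ⟨S, fun n => ?_⟩
  have key : ∀ (l l' : List I), L n = l' ++ l → qf U l (A n) S := by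
    intro l l'
    induction l' using List.reverseRecOn generalizing l with
    | nil =>
      intro hl
      rw [List.nil_append] at hl
      rw [← hl]
      exact h n S
    | append_singleton l' c ih =>
      intro hl
      rw [List.append_assoc] at hl
      have h1 := ih _ hl
      have hpw : (L n).Pairwise (· < ·) := ((F n).sortedLT_sort).pairwise
      have hfil : (L n).filter (c < ·) = l := by
        rw [hl] at hpw ⊢
        rw [List.filter_append]
        have hpw1 := List.pairwise_append.1 hpw
        have e1 : l'.filter (c < ·) = [] := by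
          rw [List.filter_eq_nil_iff]
          intro a ha
          have := hpw1.2.2 a ha c (by simp)
          simpa using this.le
        rw [e1, List.nil_append]
        have hpw2 := List.pairwise_cons.1 hpw1.2.1
        change List.filter (c < ·) (c :: l) = l
        rw [List.filter_cons]
        simp only [lt_self_iff_false, decide_false, Bool.false_eq_true, if_false]
        rw [List.filter_eq_self]
        intro a ha
        simpa using hpw2.1 a ha
      have hmemF : ∀ d, d ∈ F n ↔ d ∈ L n := fun d => by simp [L]
      have hlow : ∀ d ∈ F n, d ∉ c :: l → d < c := by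
        intro d hd hdl
        rw [hmemF, hl] at hd
        have hd' : d ∈ l' := by
          rcases List.mem_append.1 hd with h | h
          · exact h
          · exact absurd h hdl
        rw [hl] at hpw
        exact (List.pairwise_append.1 hpw).2.2 d hd' c (by simp)
      have h2 : qf U (c :: l) (A n) (fun d => if d < c then S d else p d) := by
        refine (qf_dep (hF n) (c :: l) _ _ ?_).1 h1
        intro d hd hdl
        rw [if_pos (hlow d hd hdl)]
      have h3 := hg c (fun d => if d < c then S d else p d) n
      rw [hfil] at h3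
      have h4 := h3 h2
      rw [← hS c] at h4
      refine (qf_dep (hF n) l _ _ ?_).1 h4
      intro d hd hdl
      by_cases hdc : d = c
      · subst hdc
        rw [Function.update_self]
      · rw [Function.update_of_ne hdc]
        have := hlow d hd (by simp [hdc, hdl])
        rw [if_pos this]
  exact key [] (L n) (by simp)

end

end Q210.IU
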