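import Pool.Agent.Q210.IU.Blk

set_option linter.unusedSectionVars false

open Filter Set Cardinal ZFSet

universe u v

namespace Q210.IU

variable {κ : ℕ → Cardinal.{u}} {W : ∀ n, Ultrafilter (κ n).ord.ToType} {B : ℕ → Set (Kt κ)}
variable (hκ : StrictMono κ) (h0 : ∀ n, ℵ₀ < κ n) (hW : ∀ n, IsMeas (W n))
  (hB : ∀ j, #(B j) = κ j)

include hκ in
lemma Et_comp {S₁ S₂ : Set (It κ)} {N : ℕ} (h1 : ∀ c ∈ S₁, (ofLex c).1 < N)
    (h2 : ∀ d ∈ S₂, N ≤ (ofLex d).1) (hc : #S₁ < κ N) (x : ZFSet.{u}) :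
    Et W h0 hW (S₁ ∪ S₂) x = Et W h0 hW S₂ (Et W h0 hW S₁ x) := by
  refine E_comp (Ut κ W) (Ut_sigma h0 hW) (fun c hc d hd => ?_) (fun d hd c hc => ?_)
    (fun d hd => ?_) x
  · exact lt_of_fst ((h1 c hc).trans_le (h2 d hd))
  · refine Ut_cpl hW d ?_
    rw [mk_Xt]
    exact hκ ((h1 c hc).trans_le (h2 d hd))
  · refine Ut_cpl hW d ?_
    refine lt_of_lt_of_le ?_ (hκ.monotone (h2 d hd))
    refine lt_of_le_of_lt ?_ ((inacc h0 hW N).isStrongPrelimit hc)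
    rw [← Cardinal.mk_set]
    refine Cardinal.mk_le_of_injective
      (f := fun F : {F : Finset (It κ) // (F : Set (It κ)) ⊆ S₁} => {c : S₁ | c.1 ∈ F.1}) ?_
    intro F G h
    apply Subtype.ext
    ext c
    constructor
    · intro hc
      have h3 : (⟨c, F.2 hc⟩ : S₁) ∈ {c : S₁ | c.1 ∈ F.1} := hc
      have h4 : {c : S₁ | c.1 ∈ F.1} = {c : S₁ | c.1 ∈ G.1} := h
      rw [h4] at h3
      exact h3
    · intro hc
      have h3 : (⟨c, G.2 hc⟩ : S₁) ∈ {c : S₁ | c.1 ∈ G.1} := hc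
      have h4 : {c : S₁ | c.1 ∈ F.1} = {c : S₁ | c.1 ∈ G.1} := h
      rw [← h4] at h3
      exact h3

variable (B) in
/-- the tail system -/
def tl (n a : ℕ → ℕ) (m : ℕ) : Set (It κ) := {c | ∃ k, m ≤ k ∧ c ∈ blk κ B (n k) (a k)}

variable (B) in
/-- the partial system -/
def pt (n a : ℕ → ℕ) (m M : ℕ) : Set (It κ) :=
  {c | ∃ k, m ≤ k ∧ k < M ∧ c ∈ blk κ B (n k) (a k)}

variable {n a : ℕ → ℕ} (hn : StrictMono n) (ha : ∀ k, a k < n (k + 1))

lemma tl_eq (m : ℕ) : tl B n a m = blk κ B (n m) (a m) ∪ tl B n a (m + 1) := by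
  ext c
  constructor
  · rintro ⟨k, hk, hc⟩
    rcases hk.eq_or_lt with h | h
    · subst h
      exact Or.inl hc
    · exact Or.inr ⟨k, h, hc⟩
  · rintro (hc | ⟨k, hk, hc⟩)
    · exact ⟨m, le_rfl, hc⟩
    · exact ⟨k, (Nat.le_succ m).trans hk, hc⟩

lemma tl_eq' {m M : ℕ} (hmM : m ≤ M) : tl B n a m = pt B n a m M ∪ tl B n a M := by
  ext c
  constructor
  · rintro ⟨k, hk, hc⟩
    rcases lt_or_ge k M with h | h
    · exact Or.inl ⟨k, hk, h, hc⟩
    · exact Or.inr ⟨k, h, hc⟩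
  · rintro (⟨k, hk, _, hc⟩ | ⟨k, hk, hc⟩)
    · exact ⟨k, hk, hc⟩
    · exact ⟨k, hmM.trans hk, hc⟩

include hn in
lemma tl_level (m : ℕ) : ∀ c ∈ tl B n a m, n m ≤ (ofLex c).1 := by
  rintro c ⟨k, hk, hc⟩
  rw [hc.1]
  exact hn.monotone hk

include hn in
lemma pt_level (m M : ℕ) : ∀ c ∈ pt B n a m M, (ofLex c).1 < n M := by
  rintro c ⟨k, _, hk, hc⟩
  rw [hc.1]
  exact hn hk

include hκ h0 hB hn ha in
lemma pt_card (m M : ℕ) : #(pt B n a m M) < κ (n M) := by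
  induction M with
  | zero =>
    have h1 : pt B n a m 0 = ∅ := by
      ext c
      constructor
      · rintro ⟨k, _, hk, _⟩
        exact absurd hk (Nat.not_lt_zero k)
      · intro h
        exact absurd h (Set.notMem_empty c)
    rw [h1, Cardinal.mk_eq_zero]
    exact aleph0_pos.trans (h0 _)
  | succ M ih =>
    have h1 : pt B n a m (M + 1) ⊆ pt B n a m M ∪ blk κ B (n M) (a M) := by
      rintro c ⟨k, hk1, hk2, hc⟩
      rcases (Nat.lt_succ_iff.1 hk2).eq_or_lt with h | h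
      · subst h
        exact Or.inr hc
      · exact Or.inl ⟨k, hk1, h, hc⟩
    refine lt_of_le_of_lt (Cardinal.mk_le_mk_of_subset h1) ?_
    refine lt_of_le_of_lt (Cardinal.mk_union_le _ _) ?_
    refine add_lt_of_lt (h0 _).le (ih.trans (hκ (hn (Nat.lt_succ_self M)))) ?_
    exact lt_of_le_of_lt (mk_blk hB _ _) (hκ (ha M))

include hκ hB hn ha in
lemma Et_tl_succ (m : ℕ) (x : ZFSet.{u}) : Et W h0 hW (tl B n a m) x =
    Et W h0 hW (tl B n a (m + 1)) (Et W h0 hW (blk κ B (n m) (a m)) x) := by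
  rw [tl_eq m]
  refine Et_comp hκ h0 hW (N := n (m + 1)) (fun c hc => ?_) (tl_level hn _) ?_ x
  · rw [hc.1]
    exact hn (Nat.lt_succ_self m)
  · exact lt_of_le_of_lt (mk_blk hB _ _) (hκ (ha m))

include hκ hB hn ha in
lemma Et_tl_sup (m : ℕ) : Et W h0 hW (tl B n a m) (⨆ n, κ n).ord.toZFSet =
    (⨆ n, κ n).ord.toZFSet := by
  refine Et_sup hκ h0 hW fun η hη => ?_
  obtain ⟨N, hN, hN2⟩ := exists_lt hκ hη 0
  have hM : ∃ M, m ≤ M ∧ η < (κ (n M)).ord := by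
    refine ⟨max m N, le_max_left _ _, hN2.trans_le (Cardinal.ord_le_ord.2 (hκ.monotone ?_))⟩
    exact (le_max_right m N).trans (hn.id_le _)
  obtain ⟨M, hmM, hM⟩ := hM
  rw [tl_eq' hmM, Et_comp hκ h0 hW (N := n M) (pt_level hn m M) (tl_level hn M)
    (pt_card hκ h0 hB hn ha m M)]
  have h1 : Et W h0 hW (pt B n a m M) η.toZFSet ∈ (κ (n M)).ord.toZFSet :=
    Et_small h0 hW (inacc h0 hW (n M)) (pt_card hκ h0 hB hn ha m M)
      (fun c hc => hκ (pt_level hn m M c hc)) hM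
  have h2 : (Et W h0 hW (pt B n a m M) η.toZFSet).rank < (κ (n M)).ord := by
    have := ZFSet.rank_lt_of_mem h1
    rwa [Ordinal.rank_toZFSet] at this
  rw [Et_fix h0 hW (n := n M) (tl_level hn M) h2 hκ]
  refine (ZFSet.isOrdinal_toZFSet _).mem_trans h1 ?_
  rw [Ordinal.toZFSet_mem_toZFSet_iff]
  exact Cardinal.ord_lt_ord.2 (lt_sup hκ _)

end Q210.IU
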